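import Pool.Agent.Work.StdConj01.Kappa

/-!
Regularity of the Lefschetz operator in weight `-2` in even dimensions, from very general
hypersurface sections.
-/

open CategoryTheory MonoidalCategory CartesianMonoidalCategory

universe u v w x b

namespace Pool.Std

open Pool.KC Pool.SL

variable {V : Type u} [Category.{v} V] [CartesianMonoidalCategory V] {K : Type x} [Field K]
variable {T : WeilTheory.{u, v, w, x} V K}

/-- a class acting by zero on the middle cohomology comes from `X` if the cohomology outside the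
middle degree does -/
theorem exists_of_mid {X Y : V} {i : Y ⟶ X}
    (hres : ∀ j, j ≠ T.dim Y → ∀ y ∈ T.deg Y j, ∃ a ∈ T.deg X j, T.pull i a = y)
    {z : T.H (Y ⊗ Y)} (hz : z ∈ T.deg (Y ⊗ Y) (2 * T.dim Y))
    (hmid : ∀ a ∈ T.deg Y (T.dim Y), T.act z a = 0) :
    ∃ g ∈ T.deg (X ⊗ X) (2 * T.dim Y), T.pull (sq i) g = z := by
  have h1 : z = ∑ k ∈ Finset.range (2 * T.dim Y + 1),
      T.component Y Y (2 * T.dim Y - k) k z := by
    apply T.act_injective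
    ext a
    have h2 : T.act (∑ k ∈ Finset.range (2 * T.dim Y + 1),
        T.component Y Y (2 * T.dim Y - k) k z) a =
        ∑ k ∈ Finset.range (2 * T.dim Y + 1), T.act z (T.proj Y k a) := by
      rw [← T.actEquiv_apply, map_sum, LinearMap.sum_apply]
      apply Finset.sum_congr rfl
      intro k hk
      rw [Finset.mem_range] at hk
      rw [T.actEquiv_apply, T.act_component (by omega)]
      simp only [LinearMap.comp_apply]
      rw [show 2 * T.dim Y - (2 * T.dim Y - k) = k by omega]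
      exact T.proj_same (T.act_deg hz (by omega) (T.proj_mem k a))
    rw [h2, ← map_sum]
    congr 1
    have h3 := congrArg (fun f : Module.End K (T.H Y) => f a) (T.projs Y).sum
    simpa [LinearMap.sum_apply] using h3.symm
  have h3 : z ∈ (T.deg (X ⊗ X) (2 * T.dim Y)).map (T.pull (sq i)).toLinearMap := by
    rw [h1]
    apply sum_mem
    intro k hk
    rw [Finset.mem_range] at hk
    by_cases hkd : k = T.dim Y
    · have h4 : T.component Y Y (2 * T.dim Y - k) k z = 0 := by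
        apply T.act_injective
        rw [T.act_component (by omega), T.act_zero]
        ext a
        simp only [LinearMap.comp_apply, LinearMap.zero_apply]
        rw [show 2 * T.dim Y - (2 * T.dim Y - k) = k by omega]
        rw [hmid _ (T.deg_of_eq (T.proj_mem k a) hkd), map_zero]
      rw [h4]
      exact zero_mem _
    · exact component_mem_range (hres _ (by omega)) (hres _ hkd) (by omega) z
  exact h3

variable {R : Cyc T}

theorem Sect.res_ne {X : V} {c : T.H X} (hc : c ∈ R.A X 1) (S : Sect R c) (j : ℕ)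
    (hj : j ≠ T.dim S.Y) : ∀ y ∈ T.deg S.Y j, ∃ a ∈ T.deg X j, T.pull S.i a = y := by
  intro y hy
  rcases Nat.lt_or_ge (2 * T.dim S.Y) j with h0 | h0
  · exact ⟨0, zero_mem _, by rw [map_zero, T.deg_eq_zero hy h0]⟩
  rcases Nat.lt_or_ge j (T.dim S.Y) with h1 | h1
  · exact S.weak _ h1 y hy
  · obtain ⟨e, he, hey⟩ := S.hard (2 * T.dim S.Y - j) (j - T.dim S.Y) (by omega) y
      (T.deg_of_eq hy (by omega))
    obtain ⟨a, ha, hae⟩ := S.weak _ (by omega) e he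
    refine ⟨c ^ (j - T.dim S.Y) * a, ?_, ?_⟩
    · exact T.deg_of_eq (T.mul_deg (R.deg (R.pow hc _)) ha) (by omega)
    · rw [map_mul, map_pow, hae, hey]

variable [CharZero K]

/-- an algebraic self-correspondence which is the identity on `H^i` and zero on `H^j` -/
def Cyc.Splits (R : Cyc T) (X : V) (i j : ℕ) : Prop :=
  ∃ u ∈ R.Op X X (T.dim X), (∀ a ∈ T.deg X i, u a = a) ∧ ∀ a ∈ T.deg X j, u a = 0

/-- separation of the middle degree of a very general section gives regularity in weight `-2` -/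
theorem Sect.reg2 {X : V} {c : T.H X} (hc : c ∈ R.A X 1) (S : Sect R c) (hY : 1 ≤ T.dim S.Y)
    (hs : R.Splits S.Y (T.dim S.Y - 1) (T.dim S.Y)) : Reg2 R c := by
  have hd := S.dim
  obtain ⟨_, ⟨z, hz, rfl⟩, hone, hmid⟩ := hs
  obtain ⟨g0, hg0, hg0z⟩ := exists_of_mid (S.res_ne hc) (R.deg hz) hmid
  obtain ⟨g, hg, s, hgz⟩ := S.spread z hz ⟨g0, hg0, 0, by rw [zero_smul, add_zero, hg0z]⟩
  have hs : s = 0 := by
    have h1 : T.act z S.v = 0 := hmid _ S.v_mem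
    rw [hgz, T.act_add, T.act_smul, LinearMap.add_apply, LinearMap.smul_apply,
      act_sq_van S.i g S.v_orth, zero_add, T.act_diag, LinearMap.id_apply] at h1
    exact (smul_eq_zero.mp h1).resolve_right S.v_ne
  rw [hs, zero_smul, add_zero] at hgz
  have hcC : c ∈ T.C X 1 := R.le hc
  -- a class of `X` with zero restriction to `Y` is killed by `c`
  have hkill : ∀ w : T.H X, T.pull S.i w = 0 → c * w = 0 := by
    intro w hw
    apply T.nondeg
    intro b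
    have h5 := S.tr (b * w)
    rw [map_mul, hw, mul_zero, map_zero] at h5
    rw [T.even_comm (R.deg hc) w, ← mul_assoc]
    exact (mul_eq_zero.mp h5.symm).resolve_left S.r_ne
  have hact : ∀ ξ : T.H X, T.act z (T.pull S.i ξ) =
      (S.r : K) • T.pull S.i (T.act g (c * ξ)) := by
    intro ξ
    have h3 := act_sq_pull S.i hcC S.tr g ξ
    rw [← T.even_comm (R.deg hc) ξ, ← hgz] at h3
    exact h3
  refine ⟨(S.r : K) • g, R.smul _ (R.of_eq hg (by omega)), ?_, ?_⟩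
  · intro j hj ξ hξ
    have h2 := hact ξ
    rw [hone _ (T.deg_of_eq (T.pull_deg _ hξ) (by omega))] at h2
    rw [T.act_smul, LinearMap.smul_apply, ← sub_eq_zero, ← mul_sub]
    apply hkill
    rw [map_sub, map_smul, ← h2, sub_self]
  · intro j hj ξ hξ
    have h2 := hact ξ
    rw [hmid _ (T.deg_of_eq (T.pull_deg _ hξ) (by omega))] at h2
    rw [T.act_smul, LinearMap.smul_apply]
    apply hkill
    rw [map_smul, ← h2]

/-- transfer of regularity to a direct summand -/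
theorem Reg2.transfer {U W : V} {cU : T.H U} {cW : T.H W} {a b t : ℕ}
    {α : T.H U →ₗ[K] T.H W} {β : T.H W →ₗ[K] T.H U} (hα : α ∈ R.Op U W a)
    (hβ : β ∈ R.Op W U b) (h1 : ∀ x, α (cU * x) = cW * α x)
    (h2 : ∀ x, β (cW * x) = cU * β x) (h3 : ∀ x, β (α x) = x) (ha : a = T.dim U + t)
    (hb : b = T.dim U + t) (hW : T.dim W = T.dim U + 2 * t) (hU : 1 ≤ T.dim U)
    (h : Reg2 R cW) : Reg2 R cU := by
  obtain ⟨g, hg, hg0, hg1⟩ := h
  have hmem : β ∘ₗ T.act g ∘ₗ α ∈ R.Op U U (T.dim U - 1) := by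
    refine Cyc.Op_comp (Cyc.Op_comp hα (Cyc.act_mem_Op hg) (t := T.dim U + t - 1) (by omega))
      hβ (by omega)
  obtain ⟨y, hy, hya⟩ := hmem
  refine ⟨y, hy, ?_, ?_⟩
  · intro j hj x hx
    have hx' : α x ∈ T.deg W (j + 2 * t) := Cyc.Op_deg hα (by omega) hx
    rw [hya]
    change cU * β (T.act g (α (cU * x))) = cU * x
    rw [h1, ← h2, hg0 _ (by omega) _ hx', h2, h3]
  · intro j hj x hx
    have hx' : α x ∈ T.deg W (j + 2 * t) := Cyc.Op_deg hα (by omega) hx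
    rw [hya]
    change cU * β (T.act g (α (cU * x))) = 0
    rw [h1, ← h2, hg1 _ (by omega) _ hx', map_zero]

/-- regularity is invariant under isomorphisms -/
theorem Reg2.iso {U W : V} (f : W ⟶ U) (g : U ⟶ W) (hgf : g ≫ f = 𝟙 U) {cU : T.H U} {cW : T.H W}
    (h1 : T.pull f cU = cW) (hd : T.dim U = T.dim W)
    (hU : 1 ≤ T.dim U) (h : Reg2 R cW) : Reg2 R cU := by
  have h2 : ∀ x, T.pull g (T.pull f x) = x := by
    intro x
    rw [T.pull_comp', hgf, T.pull_id]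
  refine Reg2.transfer (α := (T.pull f).toLinearMap) (β := (T.pull g).toLinearMap) (t := 0)
    (Cyc.Op_pull f) (Cyc.Op_pull g) ?_ ?_ h2 rfl (by omega) (by omega) hU h
  · intro x
    change T.pull f (cU * x) = cW * T.pull f x
    rw [map_mul, h1]
  · intro x
    change T.pull g (cW * x) = cU * T.pull g x
    rw [map_mul, ← h1, h2]

variable {G : Pl.{u, v, w, x, b} R}

/-- regularity on `(P¹ × P¹) × U` gives regularity on `U` -/
theorem Reg2.of_lines {U : V} (N : G.Bund U) (hU : 1 ≤ T.dim U)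
    (h : Reg2 R (G.c (G.box (G.box G.O1 G.O1) N))) : Reg2 R (G.c N) := by
  set δ : T.H (G.P1 ⊗ G.P1) :=
    T.pull (fst G.P1 G.P1) (G.c G.O1) - T.pull (snd G.P1 G.P1) (G.c G.O1) with hδ
  have hδA : δ ∈ R.A (G.P1 ⊗ G.P1) 1 :=
    sub_mem (R.pull _ (G.c_mem _)) (R.pull _ (G.c_mem _))
  have hδ0 : δ * G.c (G.box G.O1 G.O1) = 0 := Pl.box_sub
  have hδ0' : G.c (G.box G.O1 G.O1) * δ = 0 := by rw [G.c_comm, hδ0]
  have hδ2 : T.tr (G.P1 ⊗ G.P1) (δ * δ) = -2 := Pl.tr_sub_sq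
  have hdim : T.dim ((G.P1 ⊗ G.P1) ⊗ U) = T.dim U + 2 := by
    rw [T.dim_prod, T.dim_prod, G.P_dim]
    omega
  have hδ1 : T.pull (fst (G.P1 ⊗ G.P1) U) δ ∈ R.A ((G.P1 ⊗ G.P1) ⊗ U) 1 :=
    R.pull _ hδA
  refine Reg2.transfer
    (α := LinearMap.mulLeft K (T.pull (fst (G.P1 ⊗ G.P1) U) δ) ∘ₗ
      (T.pull (snd (G.P1 ⊗ G.P1) U)).toLinearMap)
    (β := (((-1 / 2 : ℚ) : ℚ) : K) • (T.push (G.P1 ⊗ G.P1) U ∘ₗ
      LinearMap.mulLeft K (T.pull (fst (G.P1 ⊗ G.P1) U) δ)))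
    (a := T.dim U + 1) (b := T.dim U + 1) (t := 1)
    (Cyc.Op_comp (Cyc.Op_pull _) (Cyc.Op_mul hδ1) (by omega))
    (Cyc.Op_smul _ (Cyc.Op_comp (Cyc.Op_mul hδ1) (Cyc.Op_push _ _) (by omega)))
    ?_ ?_ ?_ rfl rfl (by omega) hU h
  · intro y
    change T.pull (fst _ _) δ * T.pull (snd _ _) (G.c N * y) =
      G.c (G.box (G.box G.O1 G.O1) N) * (T.pull (fst _ _) δ * T.pull (snd _ _) y)
    rw [Pl.box_mul', hδ0', map_zero, zero_mul, zero_add]
  · intro y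
    change ((-1 / 2 : ℚ) : K) • T.push (G.P1 ⊗ G.P1) U (T.pull (fst _ _) δ *
      (G.c (G.box (G.box G.O1 G.O1) N) * y)) =
      G.c N * (((-1 / 2 : ℚ) : K) • T.push (G.P1 ⊗ G.P1) U (T.pull (fst _ _) δ * y))
    have h1 : T.pull (fst (G.P1 ⊗ G.P1) U) δ * G.c (G.box (G.box G.O1 G.O1) N) =
        T.pull (snd (G.P1 ⊗ G.P1) U) (G.c N) * T.pull (fst (G.P1 ⊗ G.P1) U) δ := by
      rw [G.c_box, mul_add, ← map_mul, hδ0, map_zero, zero_add,
        T.even_comm (T.snd_deg (X := G.P1 ⊗ G.P1) (G.c_deg N))]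
    rw [← mul_assoc, h1, mul_assoc, T.push_snd_mul, mul_smul_comm]
  · intro y
    change ((-1 / 2 : ℚ) : K) • T.push (G.P1 ⊗ G.P1) U (T.pull (fst _ _) δ *
      (T.pull (fst _ _) δ * T.pull (snd _ _) y)) = y
    rw [← mul_assoc, ← map_mul, T.push_pure, hδ2, smul_smul]
    push_cast
    rw [show (-1 / 2 : K) * -2 = 1 by norm_num, one_smul]

/-- `(P¹ × Z) × (P¹ × Y)` and `(P¹ × P¹) × (Z × Y)` -/
theorem Reg2.of_square {Z Y : V} (N : G.Bund Z) (M : G.Bund Y) (hZ : 1 ≤ T.dim Z + T.dim Y)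
    (h : Reg2 R (G.c (G.box (G.box G.O1 N) (G.box G.O1 M)))) :
    Reg2 R (G.c (G.box N M)) := by
  apply Reg2.of_lines (G := G) (G.box N M) (by rw [T.dim_prod]; omega)
  refine Reg2.iso
    (lift (lift (fst (G.P1 ⊗ Z) (G.P1 ⊗ Y) ≫ fst G.P1 Z) (snd (G.P1 ⊗ Z) (G.P1 ⊗ Y) ≫ fst G.P1 Y))
      (lift (fst (G.P1 ⊗ Z) (G.P1 ⊗ Y) ≫ snd G.P1 Z) (snd (G.P1 ⊗ Z) (G.P1 ⊗ Y) ≫ snd G.P1 Y)))
    (lift (lift (fst (G.P1 ⊗ G.P1) (Z ⊗ Y) ≫ fst G.P1 G.P1)
        (snd (G.P1 ⊗ G.P1) (Z ⊗ Y) ≫ fst Z Y))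
      (lift (fst (G.P1 ⊗ G.P1) (Z ⊗ Y) ≫ snd G.P1 G.P1)
        (snd (G.P1 ⊗ G.P1) (Z ⊗ Y) ≫ snd Z Y)))
    (by ext <;> simp) ?_ ?_ ?_ h
  · simp only [G.c_box, map_add, T.pull_comp', lift_fst, lift_snd, lift_fst_assoc, lift_snd_assoc]
    abel
  · simp only [T.dim_prod]
    omega
  · rw [T.dim_prod, T.dim_prod, T.dim_prod, G.P_dim]
    omega

/-- `((P¹ × P¹) × Z) × Y` and `(P¹ × P¹) × (Z × Y)` -/
theorem Reg2.of_left {Z Y : V} (N : G.Bund Z) (M : G.Bund Y) (hZ : 1 ≤ T.dim Z + T.dim Y)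
    (h : Reg2 R (G.c (G.box (G.box (G.box G.O1 G.O1) N) M))) :
    Reg2 R (G.c (G.box N M)) := by
  apply Reg2.of_lines (G := G) (G.box N M) (by rw [T.dim_prod]; omega)
  refine Reg2.iso
    (lift (fst ((G.P1 ⊗ G.P1) ⊗ Z) Y ≫ fst (G.P1 ⊗ G.P1) Z)
      (lift (fst ((G.P1 ⊗ G.P1) ⊗ Z) Y ≫ snd (G.P1 ⊗ G.P1) Z) (snd ((G.P1 ⊗ G.P1) ⊗ Z) Y)))
    (lift (lift (fst (G.P1 ⊗ G.P1) (Z ⊗ Y)) (snd (G.P1 ⊗ G.P1) (Z ⊗ Y) ≫ fst Z Y))
      (snd (G.P1 ⊗ G.P1) (Z ⊗ Y) ≫ snd Z Y))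
    (by ext <;> simp) ?_ ?_ ?_ h
  · simp only [G.c_box, map_add, T.pull_comp', lift_fst, lift_snd, lift_fst_assoc, lift_snd_assoc,
      Category.assoc]
    abel
  · simp only [T.dim_prod]
    omega
  · rw [T.dim_prod, T.dim_prod, T.dim_prod, G.P_dim]
    omega

/-- `Z × ((P¹ × P¹) × Y)` and `(P¹ × P¹) × (Z × Y)` -/
theorem Reg2.of_right {Z Y : V} (N : G.Bund Z) (M : G.Bund Y) (hZ : 1 ≤ T.dim Z + T.dim Y)
    (h : Reg2 R (G.c (G.box N (G.box (G.box G.O1 G.O1) M)))) :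
    Reg2 R (G.c (G.box N M)) := by
  apply Reg2.of_lines (G := G) (G.box N M) (by rw [T.dim_prod]; omega)
  refine Reg2.iso
    (lift (snd Z ((G.P1 ⊗ G.P1) ⊗ Y) ≫ fst (G.P1 ⊗ G.P1) Y)
      (lift (fst Z ((G.P1 ⊗ G.P1) ⊗ Y)) (snd Z ((G.P1 ⊗ G.P1) ⊗ Y) ≫ snd (G.P1 ⊗ G.P1) Y)))
    (lift (snd (G.P1 ⊗ G.P1) (Z ⊗ Y) ≫ fst Z Y)
      (lift (fst (G.P1 ⊗ G.P1) (Z ⊗ Y)) (snd (G.P1 ⊗ G.P1) (Z ⊗ Y) ≫ snd Z Y)))
    (by ext <;> simp) ?_ ?_ ?_ h
  · simp only [G.c_box, map_add, T.pull_comp', lift_fst, lift_snd, lift_fst_assoc, lift_snd_assoc,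
      Category.assoc]
    abel
  · simp only [T.dim_prod]
    omega
  · rw [T.dim_prod, T.dim_prod, T.dim_prod, G.P_dim]
    omega

/-- `(P¹ × Z) × Y` and `P¹ × (Z × Y)` -/
theorem Reg2.assoc {Z Y : V} (N : G.Bund Z) (M : G.Bund Y)
    (h : Reg2 R (G.c (G.box (G.box G.O1 N) M))) :
    Reg2 R (G.c (G.box G.O1 (G.box N M))) := by
  refine Reg2.iso
    (lift (fst (G.P1 ⊗ Z) Y ≫ fst G.P1 Z)
      (lift (fst (G.P1 ⊗ Z) Y ≫ snd G.P1 Z) (snd (G.P1 ⊗ Z) Y)))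
    (lift (lift (fst G.P1 (Z ⊗ Y)) (snd G.P1 (Z ⊗ Y) ≫ fst Z Y))
      (snd G.P1 (Z ⊗ Y) ≫ snd Z Y))
    (by ext <;> simp) ?_ ?_ ?_ h
  · simp only [G.c_box, map_add, T.pull_comp', lift_fst, lift_snd, lift_fst_assoc, lift_snd_assoc]
    abel
  · simp only [T.dim_prod]
    omega
  · rw [T.dim_prod, G.P_dim]
    omega

/-- regularity on the products of two varieties of the same dimension at most `n` -/
theorem reg2_square {n : ℕ} (h : ∀ (A B : V) (N : G.Bund A) (M : G.Bund B), T.dim A = n →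
      T.dim B = n → Reg2 R (G.c (G.box N M))) :
    ∀ (t k : ℕ), 1 ≤ k → k + t = n → ∀ (A B : V) (N : G.Bund A) (M : G.Bund B), T.dim A = k →
      T.dim B = k → Reg2 R (G.c (G.box N M)) := by
  intro t
  induction t with
  | zero =>
    intro k _ hk A B N M hA hB
    exact h A B N M (by omega) (by omega)
  | succ t ih =>
    intro k hk hkt A B N M hA hB
    apply Reg2.of_square N M (by omega)
    apply ih (k + 1) (by omega) (by omega)
    · rw [T.dim_prod, G.P_dim]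
      omega
    · rw [T.dim_prod, G.P_dim]
      omega

/-- regularity on `P¹ × Z` in weight `-2` separates the middle degree of `Z` -/
theorem splits_of_reg2_line {Z : V} (N : G.Bund Z) (hZ : 1 ≤ T.dim Z)
    (h : Reg2 R (G.c (G.box G.O1 N))) : R.Splits Z (T.dim Z - 1) (T.dim Z) := by
  obtain ⟨g, hg, h0, h1⟩ := h
  have hdim : T.dim (G.P1 ⊗ Z) = T.dim Z + 1 := by rw [T.dim_prod, G.P_dim]; omega
  have hpush : ∀ a : T.H Z, T.push G.P1 Z (G.c (G.box G.O1 N) * T.pull (snd G.P1 Z) a) = a := by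
    intro a
    have h2 := Pl.box_mul' G.O1 N (1 : T.H G.P1) a
    rw [map_one, one_mul, mul_one] at h2
    rw [h2, map_add, T.push_pure]
    have h3 := T.push_pure (1 : T.H G.P1) (G.c N * a)
    rw [map_one] at h3
    rw [h3, G.P_tr, G.P_tr_one, one_smul, zero_smul, add_zero]
  have hop : T.push G.P1 Z ∘ₗ LinearMap.mulLeft K (G.c (G.box G.O1 N)) ∘ₗ T.act g ∘ₗ
      LinearMap.mulLeft K (G.c (G.box G.O1 N)) ∘ₗ (T.pull (snd G.P1 Z)).toLinearMap ∈
      R.Op Z Z (T.dim Z) := by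
    have e1 := Cyc.Op_comp (Cyc.Op_pull (R := R) (snd G.P1 Z)) (Cyc.Op_mul (G.c_mem (G.box G.O1 N)))
      (t := T.dim Z + 1) (by omega)
    have e2 := Cyc.Op_comp e1 (Cyc.act_mem_Op hg) (t := T.dim Z) (by omega)
    have e3 := Cyc.Op_comp e2 (Cyc.Op_mul (G.c_mem (G.box G.O1 N))) (t := T.dim Z + 1) (by omega)
    exact Cyc.Op_comp e3 (Cyc.Op_push (R := R) G.P1 Z) (by omega)
  refine ⟨_, hop, ?_, ?_⟩
  · intro a ha
    change T.push G.P1 Z (G.c (G.box G.O1 N) *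
      T.act g (G.c (G.box G.O1 N) * T.pull (snd G.P1 Z) a)) = a
    rw [h0 (T.dim Z - 1) (by omega) _ (T.pull_deg _ ha), hpush]
  · intro a ha
    change T.push G.P1 Z (G.c (G.box G.O1 N) *
      T.act g (G.c (G.box G.O1 N) * T.pull (snd G.P1 Z) a)) = 0
    rw [h1 (T.dim Z) (by omega) _ (T.pull_deg _ ha), map_zero]

end Pool.Std
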