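import Pool.Agent.Work.StdConj01.Conv
import Pool.Agent.Work.MP_a60482_zo.Loc

/-!
The statements of the hand-in.
-/

open CategoryTheory MonoidalCategory CartesianMonoidalCategory

universe u v w x y b

namespace Pool.Std.Polarization

variable {V : Type u} [Category.{v} V] [CartesianMonoidalCategory V] {K : Type x} [Field K]
variable [CharZero K] {F : Type y} [Field F] [Algebra F K]
variable {D : WeilCoh.{u, v, w, x} V K} {G : Polarization.{u, v, w, x, b} D}

theorem dim_section (h : D.IsWeil) {n : ℕ} {A B : V} {N : G.Bund A} {M : G.Bund B}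
    (hA : D.dim A = n) (hB : D.dim B = n) {Y : V} {i : Y ⟶ A ⊗ B}
    (hY : G.VeryGeneral (G.box N M) i) : D.dim Y + 1 = 2 * n := by
  have h1 := hY.dim
  rw [h.kunneth.dim, hA, hB] at h1
  omega

theorem conjB_of_sections (h : D.IsWeil) (hF : D.CoefficientsIn F) (hc : D.Connected)
    (hP : G.IsPolarized) (hH : G.HasHypersurfaces) (hS : G.HasSections) {n : ℕ} (hn : 1 ≤ n)
    (hsep : G.ForSections n fun Y => D.Separated Y (2 * n - 2) (2 * n - 1))
    (X : V) (M : G.Bund X) (hX : D.dim X ≤ n) : G.ConjB M := by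
  refine conjB_of_separated h hF hc hP hH hn ?_ X M hX
  intro A B N M hA hB
  obtain ⟨Y, i, hY⟩ := hS (A ⊗ B) (G.box N M) n hn (by rw [h.kunneth.dim]; omega)
  exact ⟨Y, i, hY, hsep A B N M Y i hA hB hY⟩

/-- the local equivalence -/
theorem conjB_iff_conjC (h : D.IsWeil) (hF : D.CoefficientsIn F) (hc : D.Connected)
    (hP : G.IsPolarized) {X : V} (M : G.Bund X) {Y : V} {i : Y ⟶ X ⊗ X}
    (hY : G.VeryGeneral (G.box M M) i) : G.ConjB M ↔ D.ConjC Y := by
  obtain ⟨N, hN⟩ := hY.chern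
  rw [conjB_iff h hP, WeilCoh.conjC_iff h]
  refine Loc.lefB_iff_kunneth (G := toPl h hP) M (hY.toSect h hP) N hN
    (tr_pow_ne (G := toPl h hP) M (hc X).1 (hc X).2) ?_
  intro e he
  exact (hF.div h) X _ ((toPl h hP).c_pow_mem M _) _ _ e he

/-- the equivalences in a fixed dimension -/
theorem tfae_dim (h : D.IsWeil) (hF : D.CoefficientsIn F) (hc : D.Connected)
    (hP : G.IsPolarized) (hH : G.HasHypersurfaces) (hS : G.HasSections) {n : ℕ} (hn : 1 ≤ n) :
    [∀ (X : V) (M : G.Bund X), D.dim X ≤ n → G.ConjB M,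
      G.ForSections n D.ConjC, G.ForSections n D.SignConj,
      G.ForSections n fun Y => D.Separated Y (2 * n - 2) (2 * n - 1)].TFAE := by
  tfae_have 1 → 2 := by
    intro hB A B N M Y i hA hB' hY
    exact conjC_of_conjB_box h hP (by omega) (hB A N (by omega)) (hB B M (by omega)) hY
  tfae_have 2 → 3 := fun hC A B N M Y i hA hB hY => sign_of_conjC h (hC A B N M Y i hA hB hY)
  tfae_have 3 → 4 := fun hs A B N M Y i hA hB hY =>
    (hs A B N M Y i hA hB hY).separated h ⟨2 * n - 2, by omega⟩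
  tfae_have 4 → 1 := conjB_of_sections h hF hc hP hH hS hn
  tfae_finish

/-- the equivalences in all dimensions -/
theorem tfae_all (h : D.IsWeil) (hF : D.CoefficientsIn F) (hc : D.Connected)
    (hP : G.IsPolarized) (hH : G.HasHypersurfaces) (hS : G.HasSections) :
    [∀ (X : V) (M : G.Bund X), G.ConjB M, ∀ X : V, D.ConjC X, ∀ X : V, D.SignConj X,
      ∃ g ≥ 2, ∀ (r : ℕ) (X : V), D.ModConj g r X,
      ∀ n₀ : ℕ, ∃ n ≥ n₀, ∀ Y : V, D.dim Y + 1 = 2 * n →
        D.Separated Y (2 * n - 2) (2 * n - 1)].TFAE := by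
  tfae_have 1 → 2 := by
    intro hB X
    obtain ⟨M⟩ := hP.exists_bundle X
    exact conjC_of_lefB h hP ((conjB_iff h hP M).mp (hB X M))
  tfae_have 2 → 3 := fun hC X => sign_of_conjC h (hC X)
  tfae_have 2 → 4 := fun hC => ⟨2, le_rfl, fun r X => (hC X).mod h 2 r⟩
  tfae_have 3 → 5 := fun hs n₀ => ⟨n₀ + 1, by omega, fun Y _ =>
    (hs Y).separated h ⟨2 * n₀, by omega⟩⟩
  tfae_have 4 → 5 := by
    rintro ⟨g, hg, hmod⟩ n₀
    refine ⟨n₀ + 1, by omega, fun Y _ => ?_⟩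
    refine (hmod (2 * (n₀ + 1) - 2) Y).separated (Nat.ModEq.refl _) ?_
    intro h1
    have h2 := (Nat.modEq_iff_dvd' (by omega)).mp h1.symm
    rw [show 2 * (n₀ + 1) - 1 - (2 * (n₀ + 1) - 2) = 1 by omega] at h2
    have h3 := Nat.dvd_one.mp h2
    omega
  tfae_have 5 → 1 := by
    intro hsep X M
    obtain ⟨n, hn, h1⟩ := hsep (D.dim X + 1)
    exact conjB_of_sections h hF hc hP hH hS (n := n) (by omega)
      (fun A B N M Y i hA hB hY => h1 Y (dim_section h hA hB hY)) X M (by omega)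
  tfae_finish

omit [CharZero K] in
/-- scalars on consecutive degrees -/
theorem eq_of_not_separated (h : D.IsWeil) (hF : D.CoefficientsIn F) {X : V} {k : ℕ}
    (hs : ¬ D.Separated X k (k + 1)) {z : D.H (X ⊗ X)}
    (hz : z ∈ D.alg (X ⊗ X) (D.dim X)) {c : ℕ → F}
    (hact : ∀ i : ℕ, ∀ a ∈ D.deg X i, D.act z a = algebraMap F K (c i) • a) :
    c k = c (k + 1) := by
  by_contra hne
  apply hs
  have hne' : c k - c (k + 1) ≠ 0 := sub_ne_zero.mpr hne
  have h1 : (c k - c (k + 1))⁻¹ * (c k - c (k + 1)) = 1 := inv_mul_cancel₀ hne'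
  rw [WeilCoh.separated_iff h]
  have hsm : ∀ (q : F) (f : (WeilCoh.toWeil h).H X →ₗ[K] (WeilCoh.toWeil h).H X),
      f ∈ (WeilCoh.toCyc h).Op X X ((WeilCoh.toWeil h).dim X) →
      algebraMap F K q • f ∈ (WeilCoh.toCyc h).Op X X ((WeilCoh.toWeil h).dim X) := by
    rintro q f ⟨y, hy, rfl⟩
    exact ⟨_, hF.smul _ _ q y hy, (WeilCoh.toWeil h).act_smul _ _⟩
  have hz' : (WeilCoh.toWeil h).act z ∈ (WeilCoh.toCyc h).Op X X ((WeilCoh.toWeil h).dim X) :=
    ⟨z, hz, rfl⟩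
  have hact' : ∀ i : ℕ, ∀ a ∈ D.deg X i,
      (WeilCoh.toWeil h).act z a = algebraMap F K (c i) • a := fun i a ha =>
    (WeilCoh.act_eq h z a).trans (hact i a ha)
  refine ⟨_, hsm (c k - c (k + 1))⁻¹ _ (sub_mem hz' (hsm (c (k + 1)) _ (Cyc.Op_id X))), ?_, ?_⟩
  · intro a ha
    rw [LinearMap.smul_apply, LinearMap.sub_apply, LinearMap.smul_apply, LinearMap.id_apply,
      hact' k a ha, ← sub_smul, smul_smul, ← map_sub, ← map_mul, h1, map_one, one_smul]
  · intro a ha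
    rw [LinearMap.smul_apply, LinearMap.sub_apply, LinearMap.smul_apply, LinearMap.id_apply,
      hact' (k + 1) a ha, sub_self, smul_zero]

/-- the zero-one law -/
theorem zero_one_law (h : D.IsWeil) (hF : D.CoefficientsIn F) (hc : D.Connected)
    (hP : G.IsPolarized) (hH : G.HasHypersurfaces) {n : ℕ} (hn : 1 ≤ n)
    (hno : ¬ ∀ (X : V) (M : G.Bund X), D.dim X ≤ n → G.ConjB M) :
    ∃ (A B : V) (N : G.Bund A) (M : G.Bund B), D.dim A = n ∧ D.dim B = n ∧
      ∀ (Y : V) (i : Y ⟶ A ⊗ B), G.VeryGeneral (G.box N M) i → ∀ P : V,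
        (∀ k : ℕ, 2 * n - 2 ≤ k → k ≤ 2 * n - 1 + 2 * D.dim P →
          ¬ D.Separated (P ⊗ Y) k (k + 1)) ∧
        ∀ z ∈ D.alg ((P ⊗ Y) ⊗ (P ⊗ Y)) (D.dim (P ⊗ Y)), ∀ c : ℕ → F,
          (∀ i : ℕ, ∀ a ∈ D.deg (P ⊗ Y) i, D.act z a = algebraMap F K (c i) • a) →
          ∀ k : ℕ, 2 * n - 2 ≤ k → k ≤ 2 * n + 2 * D.dim P → c k = c (2 * n - 2) := by
  obtain ⟨A, B, N, M, hA, hB, h1⟩ := zero_one h hF hc hP hH hn hno
  refine ⟨A, B, N, M, hA, hB, fun Y i hY P => ⟨h1 Y i hY P, ?_⟩⟩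
  intro z hz c hact k hk
  induction k, hk using Nat.le_induction with
  | base => exact fun _ => rfl
  | succ k hk ih =>
    intro hk'
    rw [← ih (by omega)]
    exact (eq_of_not_separated h hF (h1 Y i hY P k hk (by omega)) hz hact).symm

end Pool.Std.Polarization
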