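import Pool.Agent.Work.StdConj01.Reg2

/-!
Algebraic self-correspondences separating two degrees.
-/

open CategoryTheory MonoidalCategory CartesianMonoidalCategory

universe u v w x b

namespace Pool.Std

open Pool.KC Pool.SL

variable {V : Type u} [Category.{v} V] [CartesianMonoidalCategory V] {K : Type x} [Field K]
variable {T : WeilTheory.{u, v, w, x} V K} {R : Cyc T}

/-- the transposed correspondence -/
theorem tr_act_swap {X : V} {s : ℕ} {z : T.H (X ⊗ X)} (hz : z ∈ T.deg (X ⊗ X) (2 * s)) {k l : ℕ}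
    {a e : T.H X} (ha : a ∈ T.deg X k) (he : e ∈ T.deg X l) :
    T.tr X (T.act (T.pull (Cohomology.swap X) z) a * e) =
      (-1 : K) ^ (k * l) * T.tr X (T.act z e * a) := by
  let g : X ⊗ X ≅ X ⊗ X :=
    { hom := Cohomology.swap X
      inv := Cohomology.swap X
      hom_inv_id := by ext <;> simp [Cohomology.swap]
      inv_hom_id := by ext <;> simp [Cohomology.swap] }
  have hzc : ∀ t, z * t = t * z := fun t => T.even_comm hz t
  have h1 : T.pull (fst X X) a * T.pull (Cohomology.swap X) z * T.pull (snd X X) e =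
      T.pull g.hom (T.pull (snd X X) a * z * T.pull (fst X X) e) := by
    rw [map_mul, map_mul, T.pull_comp', T.pull_comp']
    simp [g, Cohomology.swap]
  have h2 := T.comm (T.snd_deg (X := X) ha) (T.fst_deg (Y := X) he)
  rw [T.neg_pow_smul] at h2
  have h3 : T.pull (snd X X) a * z * T.pull (fst X X) e =
      (-1 : K) ^ (k * l) • (T.pull (fst X X) e * z * T.pull (snd X X) a) := by
    rw [mul_assoc, hzc, ← mul_assoc, h2, smul_mul_assoc, mul_assoc, ← hzc, ← mul_assoc]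
  rw [T.tr_act, h1, T.tr_iso, h3, map_smul, ← T.tr_act, smul_eq_mul]

theorem neg_pow_sq (k : ℕ) : (-1 : K) ^ k * (-1) ^ k = 1 := by
  rw [← pow_add, ← two_mul, pow_mul]
  simp

theorem act_swap_id {X : V} {s : ℕ} {z : T.H (X ⊗ X)} (hz : z ∈ T.deg (X ⊗ X) (2 * s))
    {k l : ℕ} (hkl : k + l = 2 * T.dim X) (h : ∀ e ∈ T.deg X l, T.act z e = e) {a : T.H X}
    (ha : a ∈ T.deg X k) (hd : T.act (T.pull (Cohomology.swap X) z) a ∈ T.deg X k) :
    T.act (T.pull (Cohomology.swap X) z) a = a := by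
  rw [← sub_eq_zero]
  apply T.nondeg_left
  intro l' e he
  rw [sub_mul, map_sub, sub_eq_zero]
  by_cases hl : l' = l
  · subst hl
    have h4 := T.comm he ha
    rw [T.neg_pow_smul] at h4
    rw [tr_act_swap hz ha he, h e he, h4, map_smul, smul_eq_mul, mul_comm l' k, ← mul_assoc,
      neg_pow_sq, one_mul]
  · rw [T.tr_mul_ne hd he (by omega), T.tr_mul_ne ha he (by omega)]

theorem act_swap_zero {X : V} {s : ℕ} {z : T.H (X ⊗ X)} (hz : z ∈ T.deg (X ⊗ X) (2 * s))
    {k l : ℕ} (hkl : k + l = 2 * T.dim X) (h : ∀ e ∈ T.deg X l, T.act z e = 0) {a : T.H X}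
    (ha : a ∈ T.deg X k) (hd : T.act (T.pull (Cohomology.swap X) z) a ∈ T.deg X k) :
    T.act (T.pull (Cohomology.swap X) z) a = 0 := by
  apply T.nondeg_left
  intro l' e he
  by_cases hl : l' = l
  · subst hl
    rw [tr_act_swap hz ha he, h e he, zero_mul, map_zero, mul_zero]
  · rw [T.tr_mul_ne hd he (by omega)]

namespace Cyc.Splits

theorem symm {X : V} {i j : ℕ} (h : R.Splits X i j) : R.Splits X j i := by
  obtain ⟨u, hu, h1, h2⟩ := h
  refine ⟨LinearMap.id - u, sub_mem (Cyc.Op_id X) hu, ?_, ?_⟩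
  · intro a ha
    rw [LinearMap.sub_apply, LinearMap.id_apply, h2 a ha, sub_zero]
  · intro a ha
    rw [LinearMap.sub_apply, LinearMap.id_apply, h1 a ha, sub_self]

theorem transpose {X : V} {i j i' j' : ℕ} (hi : i' + i = 2 * T.dim X) (hj : j' + j = 2 * T.dim X)
    (h : R.Splits X i j) : R.Splits X i' j' := by
  obtain ⟨_, ⟨z, hz, rfl⟩, h1, h2⟩ := h
  have hop : T.act (T.pull (Cohomology.swap X) z) ∈ R.Op X X (T.dim X) :=
    Cyc.act_mem_Op (R.pull _ hz)
  refine ⟨_, hop, ?_, ?_⟩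
  · intro a ha
    exact act_swap_id (R.deg hz) hi h1 ha (Cyc.Op_deg hop (by omega) ha)
  · intro a ha
    exact act_swap_zero (R.deg hz) hj h2 ha (Cyc.Op_deg hop (by omega) ha)

/-- from the separation of the degrees `n - 1` and `n` -/
theorem phi {X : V} (hX : 1 ≤ T.dim X) (h : R.Splits X (T.dim X - 1) (T.dim X)) :
    ∃ F ∈ R.Op X X (T.dim X), (∀ a ∈ T.deg X (T.dim X - 1), F a = a) ∧
      (∀ a ∈ T.deg X (T.dim X), F a = 0) ∧ ∀ a ∈ T.deg X (T.dim X + 1), F a = a := by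
  obtain ⟨_, ⟨z, hz, rfl⟩, h1, h2⟩ := h
  have hop : T.act z ∈ R.Op X X (T.dim X) := Cyc.act_mem_Op hz
  have hopt : T.act (T.pull (Cohomology.swap X) z) ∈ R.Op X X (T.dim X) :=
    Cyc.act_mem_Op (R.pull _ hz)
  refine ⟨T.act z + T.act (T.pull (Cohomology.swap X) z) -
    T.act z ∘ₗ T.act (T.pull (Cohomology.swap X) z),
    sub_mem (add_mem hop hopt) (Cyc.Op_comp hopt hop (by omega)), ?_, ?_, ?_⟩
  · intro a ha
    have hd : T.act (T.pull (Cohomology.swap X) z) a ∈ T.deg X (T.dim X - 1) :=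
      Cyc.Op_deg hopt (by omega) ha
    change T.act z a + T.act (T.pull (Cohomology.swap X) z) a -
      T.act z (T.act (T.pull (Cohomology.swap X) z) a) = a
    rw [h1 a ha, h1 _ hd]
    abel
  · intro a ha
    have hd : T.act (T.pull (Cohomology.swap X) z) a ∈ T.deg X (T.dim X) :=
      Cyc.Op_deg hopt (by omega) ha
    change T.act z a + T.act (T.pull (Cohomology.swap X) z) a -
      T.act z (T.act (T.pull (Cohomology.swap X) z) a) = 0
    rw [h2 a ha, act_swap_zero (R.deg hz) (by omega) h2 ha hd, map_zero]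
    simp
  · intro a ha
    have hd : T.act (T.pull (Cohomology.swap X) z) a ∈ T.deg X (T.dim X + 1) :=
      Cyc.Op_deg hopt (by omega) ha
    change T.act z a + T.act (T.pull (Cohomology.swap X) z) a -
      T.act z (T.act (T.pull (Cohomology.swap X) z) a) = a
    rw [act_swap_id (R.deg hz) (show T.dim X + 1 + (T.dim X - 1) = 2 * T.dim X by omega) h1 ha hd]
    abel

variable [CharZero K] {G : Pl.{u, v, w, x, b} R}

/-- from `P × X` to `X` -/
theorem compress (hR : R.Div) {P X : V} (M : G.Bund P) (hM : T.tr P (G.c M ^ T.dim P) ≠ 0)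
    {i j t : ℕ} (ht : t ≤ T.dim P) (h : R.Splits (P ⊗ X) (i + 2 * t) (j + 2 * t)) :
    R.Splits X i j := by
  obtain ⟨u, hu, h1, h2⟩ := h
  have hdim := T.dim_prod P X
  have hx1 : T.pull (fst P X) (G.c M ^ t) ∈ R.A (P ⊗ X) t := R.pull _ (G.c_pow_mem M t)
  have hx2 : T.pull (fst P X) (G.c M ^ (T.dim P - t)) ∈ R.A (P ⊗ X) (T.dim P - t) :=
    R.pull _ (G.c_pow_mem M _)
  have hop : T.push P X ∘ₗ LinearMap.mulLeft K (T.pull (fst P X) (G.c M ^ (T.dim P - t))) ∘ₗ u ∘ₗ
      LinearMap.mulLeft K (T.pull (fst P X) (G.c M ^ t)) ∘ₗ (T.pull (snd P X)).toLinearMap ∈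
      R.Op X X (T.dim X) := by
    have e1 := Cyc.Op_comp (Cyc.Op_pull (R := R) (snd P X)) (Cyc.Op_mul hx1)
      (t := T.dim X + t) (by omega)
    have e2 := Cyc.Op_comp e1 hu (t := T.dim X + t) (by omega)
    have e3 := Cyc.Op_comp e2 (Cyc.Op_mul hx2) (t := T.dim X + T.dim P) (by omega)
    exact Cyc.Op_comp e3 (Cyc.Op_push (R := R) P X) (by omega)
  refine ⟨_, hR.op (G.c_pow_mem M (T.dim P)) hop, ?_, ?_⟩
  · intro a ha
    have hd : T.pull (fst P X) (G.c M ^ t) * T.pull (snd P X) a ∈ T.deg (P ⊗ X) (i + 2 * t) :=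
      T.deg_of_eq (T.mul_deg (T.fst_deg (G.c_pow_deg M t)) (T.snd_deg ha)) (by omega)
    change (T.tr P (G.c M ^ T.dim P))⁻¹ • T.push P X (T.pull (fst P X) (G.c M ^ (T.dim P - t)) *
      u (T.pull (fst P X) (G.c M ^ t) * T.pull (snd P X) a)) = a
    rw [h1 _ hd, ← mul_assoc, ← map_mul, ← pow_add, show T.dim P - t + t = T.dim P by omega,
      T.push_pure, smul_smul, inv_mul_cancel₀ hM, one_smul]
  · intro a ha
    have hd : T.pull (fst P X) (G.c M ^ t) * T.pull (snd P X) a ∈ T.deg (P ⊗ X) (j + 2 * t) :=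
      T.deg_of_eq (T.mul_deg (T.fst_deg (G.c_pow_deg M t)) (T.snd_deg ha)) (by omega)
    change (T.tr P (G.c M ^ T.dim P))⁻¹ • T.push P X (T.pull (fst P X) (G.c M ^ (T.dim P - t)) *
      u (T.pull (fst P X) (G.c M ^ t) * T.pull (snd P X) a)) = 0
    rw [h2 _ hd, mul_zero, map_zero, smul_zero]

/-- every separation of two consecutive degrees of `P × Y` in the middle range gives the
separation of the middle degree of `Y` -/
theorem mid (hR : R.Div) {P Y : V} (M : G.Bund P) (hM : T.tr P (G.c M ^ T.dim P) ≠ 0)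
    (hY : 1 ≤ T.dim Y) {k : ℕ} (hk : T.dim Y ≤ k + 1) (hk' : k ≤ T.dim Y + 2 * T.dim P)
    (h : R.Splits (P ⊗ Y) k (k + 1)) : R.Splits Y (T.dim Y - 1) (T.dim Y) := by
  rcases Nat.even_or_odd' (k + 1 - T.dim Y) with ⟨t, ht | ht⟩
  · refine compress hR M hM (t := t) (by omega) ?_
    rw [show T.dim Y - 1 + 2 * t = k by omega, show T.dim Y + 2 * t = k + 1 by omega]
    exact h
  · have h1 : R.Splits Y (T.dim Y) (T.dim Y + 1) := by
      refine compress hR M hM (t := t) (by omega) ?_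
      rw [show T.dim Y + 2 * t = k by omega, show T.dim Y + 1 + 2 * t = k + 1 by omega]
      exact h
    exact (h1.transpose (i' := T.dim Y) (j' := T.dim Y - 1) (by omega) (by omega)).symm

end Cyc.Splits

/-- the degree of a polarization is not zero -/
theorem tr_pow_ne {G : Pl.{u, v, w, x, b} R} {P : V} (M : G.Bund P) (h1 : (1 : T.H P) ≠ 0)
    (hH0 : ∀ a ∈ T.deg P 0, ∃ s : K, a = s • (1 : T.H P)) :
    T.tr P (G.c M ^ T.dim P) ≠ 0 := by
  intro h
  apply h1
  apply G.hard_inj M (i := 0) (k := T.dim P) (by omega) _ T.one_deg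
  rw [mul_one]
  apply T.eq_zero_of_deg (G.c_pow_deg M (T.dim P))
  intro j hj a ha
  obtain ⟨s, rfl⟩ := hH0 a (T.deg_of_eq ha (by omega))
  rw [smul_mul_assoc, one_mul, map_smul, h, smul_zero]

end Pool.Std
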