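import Pool.Agent.Work.StdConj.Api

/-!
# Further definitions for Weil cohomology theories with algebraic classes

`WeilCoh.CoefficientsIn D F`: the algebraic classes have coefficients in the subfield `F`.

`WeilCoh.Connected D`: `H^0(X) = K` for all `X`.

`WeilCoh.Separated D X i j`: some algebraic self-correspondence of `X` is the identity on
`H^i(X)` and zero on `H^j(X)`.

`WeilCoh.ModConj D g r X`: the projector onto the sum of the `H^i(X)`, `i ≡ r` modulo `g`, is
algebraic.

`Polarization.Hypersurface M i`: smooth hypersurface sections.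

`Polarization.ForSections G n P`: `P Y` for all very general sections `Y` of the products of two
varieties of dimension `n`.
-/

open CategoryTheory MonoidalCategory CartesianMonoidalCategory

universe u v w x y b

namespace Pool.Std

namespace WeilCoh

variable {V : Type u} [Category.{v} V] [CartesianMonoidalCategory V] {K : Type x} [Field K]
variable (D : WeilCoh.{u, v, w, x} V K)

/-- The groups `alg X i` are the `F`-spans of the classes of cycles, for a subfield `F` of `K`:
they are stable under multiplication by `F`, and the degrees of the elements of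
`alg X (dim X)` lie in `F`.  (`F = K`: the `K`-spans.  `F = ℚ`: rational classes.) -/
structure CoefficientsIn (F : Type y) [Field F] [Algebra F K] : Prop where
  smul : ∀ (X : V) (i : ℕ) (q : F), ∀ a ∈ D.alg X i, algebraMap F K q • a ∈ D.alg X i
  degree : ∀ X : V, ∀ a ∈ D.alg X (D.dim X), ∃ q : F, D.int a = algebraMap F K q

/-- All `X` are connected: `H^0(X) = K`. -/
def Connected : Prop :=
  ∀ X : V, (1 : D.H X) ≠ 0 ∧ ∀ a ∈ D.deg X 0, ∃ s : K, a = s • (1 : D.H X)

/-- Some algebraic self-correspondence of `X` is the identity on `H^i(X)` and zero on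
`H^j(X)`. -/
def Separated (X : V) (i j : ℕ) : Prop :=
  ∃ z ∈ D.alg (X ⊗ X) (D.dim X), (∀ a ∈ D.deg X i, D.act z a = a) ∧
    ∀ a ∈ D.deg X j, D.act z a = 0

/-- The projector of `H(X)` onto the sum of the `H^i(X)` with `i ≡ r` modulo `g` is given by an
algebraic class. -/
def ModConj (g r : ℕ) (X : V) : Prop :=
  ∃ z ∈ D.alg (X ⊗ X) (D.dim X), ∀ i : ℕ, ∀ a ∈ D.deg X i,
    D.act z a = if i ≡ r [MOD g] then a else 0

end WeilCoh

namespace Polarization

variable {V : Type u} [Category.{v} V] [CartesianMonoidalCategory V] {K : Type x} [Field K]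
variable {D : WeilCoh.{u, v, w, x} V K} (G : Polarization.{u, v, w, x, b} D)

/-- **Hypersurface sections.**  The properties of (the embedding `i` of) a smooth member `Y` of
the linear system of a power of `M` on `X`: degree, and the weak Lefschetz theorem. -/
structure Hypersurface {X Y : V} (M : G.Bund X) (i : Y ⟶ X) : Prop where
  dim : D.dim Y + 1 = D.dim X
  chern : ∃ N : G.Bund Y, G.c N = D.pb i (G.c M)
  int : ∃ r : ℚ, r ≠ 0 ∧ ∀ a : D.H X, D.int (D.pb i a) = (r : K) * D.int (a * G.c M)
  weak : ∀ j < D.dim Y, ∀ y ∈ D.deg Y j, ∃ a ∈ D.deg X j, D.pb i a = y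

/-- `P Y` holds for all very general hypersurface sections `Y` of the products `A × B` with
`dim A = dim B = n`, with respect to the product polarizations (so `dim Y = 2 n - 1`). -/
def ForSections (n : ℕ) (P : V → Prop) : Prop :=
  ∀ (A B : V) (N : G.Bund A) (M : G.Bund B) (Y : V) (i : Y ⟶ A ⊗ B), D.dim A = n →
    D.dim B = n → G.VeryGeneral (G.box N M) i → P Y

/-- Every `X` of dimension at least two has smooth hypersurface sections (Bertini). -/
def HasHypersurfaces : Prop :=
  ∀ (X : V) (M : G.Bund X), 2 ≤ D.dim X → ∃ (Y : V) (i : Y ⟶ X), G.Hypersurface M i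

end Polarization

end Pool.Std
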