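import Pool.Agent.Work.StdConj01.Step

/-!
The separation of the middle degree of the very general sections of the products of two
varieties of dimension `n` gives the Lefschetz standard conjecture in dimension at most `n`;
the zero-one law.
-/

open CategoryTheory MonoidalCategory CartesianMonoidalCategory

universe u v w x b

namespace Pool.Std

open Pool.KC Pool.SL

variable {V : Type u} [Category.{v} V] [CartesianMonoidalCategory V] {K : Type x} [Field K]
variable {T : WeilTheory.{u, v, w, x} V K} {R : Cyc T}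

/-- the product of `X` with `j` projective lines -/
def Pl.lines (G : Pl.{u, v, w, x, b} R) (X : V) : ℕ → V
  | 0 => X
  | j + 1 => G.P1 ⊗ Pl.lines G X j

/-- its polarization -/
def Pl.linesB (G : Pl.{u, v, w, x, b} R) {X : V} (M : G.Bund X) : (j : ℕ) → G.Bund (G.lines X j)
  | 0 => M
  | j + 1 => G.box G.O1 (Pl.linesB G M j)

variable {G : Pl.{u, v, w, x, b} R}

theorem Pl.dim_lines (X : V) (j : ℕ) : T.dim (G.lines X j) = T.dim X + j := by
  induction j with
  | zero => rfl
  | succ j ih =>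
    change T.dim (G.P1 ⊗ G.lines X j) = _
    rw [T.dim_prod, G.P_dim, ih]
    omega

/-- connected varieties -/
def Conn (T : WeilTheory.{u, v, w, x} V K) : Prop :=
  ∀ X : V, (1 : T.H X) ≠ 0 ∧ ∀ a ∈ T.deg X 0, ∃ s : K, a = s • (1 : T.H X)

variable [CharZero K]

/-- bundles and hypersurface sections exist -/
structure Sections (G : Pl.{u, v, w, x, b} R) : Prop where
  bund : ∀ X : V, Nonempty (G.Bund X)
  hyp : ∀ (X : V) (M : G.Bund X), 2 ≤ T.dim X → Nonempty (Hyp G M)

theorem lefB_point {X : V} (M : G.Bund X) (h0 : T.dim X = 0) : G.LefB M := by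
  refine ⟨0, zero_mem _, ?_⟩
  intro i y _
  rw [T.act_zero]
  exact ⟨rfl, fun j hj => by omega⟩

/-- from `(P¹)^j × X` to `X` -/
theorem Cyc.Splits.of_lines (hR : R.Div) {X : V} (hX : 1 ≤ T.dim X) (j : ℕ)
    (h : R.Splits (G.lines X j) (T.dim (G.lines X j) - 1) (T.dim (G.lines X j))) :
    R.Splits X (T.dim X - 1) (T.dim X) := by
  induction j with
  | zero => exact h
  | succ j ih =>
    apply ih
    have hd := Pl.dim_lines (G := G) X j
    have hd' := Pl.dim_lines (G := G) X (j + 1)
    rw [hd'] at h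
    refine Cyc.Splits.mid hR (P := G.P1) G.O1 ?_ (by omega) (k := T.dim (G.lines X j))
      (by omega) (by omega) ?_
    · rw [G.P_dim, pow_one, G.P_tr]
      exact one_ne_zero
    · rw [hd]
      have e1 : T.dim X + (j + 1) - 1 = T.dim X + j := by omega
      rw [e1] at h
      exact h

/-- regularity on the products of two varieties of dimension `n` separates the middle degree of
all varieties of dimension at most `n` -/
theorem splits_of_reg2 (hR : R.Div) (hc : Conn T) {n : ℕ}
    (hreg : ∀ (A B : V) (N : G.Bund A) (M : G.Bund B), T.dim A = n → T.dim B = n →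
      Reg2 R (G.c (G.box N M))) {X : V} (M : G.Bund X) (hX : 1 ≤ T.dim X) (hXn : T.dim X ≤ n) :
    R.Splits X (T.dim X - 1) (T.dim X) := by
  apply Cyc.Splits.of_lines (G := G) hR hX (n - T.dim X)
  have hd := Pl.dim_lines (G := G) X (n - T.dim X)
  set X' := G.lines X (n - T.dim X)
  have hd' : T.dim X' = n := by omega
  let M' : G.Bund X' := G.linesB M (n - T.dim X)
  rcases Nat.lt_or_ge n 2 with hn | hn
  · have h1 := hreg G.P1 X' G.O1 M' (by rw [G.P_dim]; omega) hd'
    exact splits_of_reg2_line M' (by omega) h1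
  · have hdT := Pl.dim_lines (G := G) G.P1 (n - 2)
    rw [G.P_dim] at hdT
    set T' := G.lines G.P1 (n - 2)
    let N' : G.Bund T' := G.linesB G.O1 (n - 2)
    have h1 := hreg (G.P1 ⊗ T') X' (G.box G.O1 N') M' (by rw [T.dim_prod, G.P_dim]; omega) hd'
    have h2 := splits_of_reg2_line (G.box N' M') (by rw [T.dim_prod]; omega) (Reg2.assoc N' M' h1)
    have hdZ : T.dim (T' ⊗ X') = 2 * n - 1 := by rw [T.dim_prod]; omega
    rw [hdZ] at h2
    refine Cyc.Splits.mid hR N' (tr_pow_ne N' (hc T').1 (hc T').2) (by omega)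
      (k := 2 * n - 2) (by omega) (by omega) ?_
    rw [show 2 * n - 2 + 1 = 2 * n - 1 by omega]
    exact h2

/-- **Main theorem.** -/
theorem lefB_of_splits (hR : R.Div) (hS : Sections G) (hc : Conn T) {n : ℕ}
    (hsep : ∀ (A B : V) (N : G.Bund A) (M : G.Bund B), T.dim A = n → T.dim B = n →
      ∃ S : Sect R (G.c (G.box N M)), R.Splits S.Y (T.dim S.Y - 1) (T.dim S.Y)) :
    ∀ (k : ℕ), k ≤ n → ∀ (X : V) (M : G.Bund X), T.dim X = k → G.LefB M := by
  -- regularity
  have hreg0 : 1 ≤ n → ∀ (A B : V) (N : G.Bund A) (M : G.Bund B), T.dim A = n → T.dim B = n →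
      Reg2 R (G.c (G.box N M)) := by
    intro hn A B N M hA hB
    obtain ⟨S, hS⟩ := hsep A B N M hA hB
    have hd := S.dim
    rw [T.dim_prod] at hd
    exact S.reg2 (G.c_mem _) (by omega) hS
  have hreg1 : ∀ k, 1 ≤ k → k ≤ n → ∀ (A B : V) (N : G.Bund A) (M : G.Bund B), T.dim A = k →
      T.dim B = k → Reg2 R (G.c (G.box N M)) := fun k hk hkn =>
    reg2_square (hreg0 (by omega)) (n - k) k hk (by omega)
  have hP2 : T.dim (G.P1 ⊗ G.P1) = 2 := by rw [T.dim_prod, G.P_dim]
  intro k
  induction k using Nat.strong_induction_on with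
  | _ k ih =>
    intro hk X M hX
    rcases Nat.eq_zero_or_pos k with h1 | h1
    · exact lefB_point M (by omega)
    · refine lefB_of_high (by omega) ?_
        (splits_of_reg2 hR hc (hreg0 (by omega)) M (by omega) (by omega))
        (hreg1 k h1 hk _ _ M M hX hX)
      rcases Nat.lt_or_ge k 3 with h3 | h3
      · rcases Nat.lt_or_ge k 2 with h2 | h2
        · exact highLam_curve (by omega)
        · exact highLam_surface hR (by omega) (hc X).2
      · obtain ⟨S₀⟩ := hS.hyp X M (by omega)
        have hd0 := S₀.dim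
        obtain ⟨S₁⟩ := hS.hyp S₀.Y S₀.N (by omega)
        have hd1 := S₁.dim
        refine highLam_of_sections S₀ S₁ (by omega) (ih (k - 1) (by omega) (by omega) _ S₀.N
          (by omega)) ?_ ?_
        · apply Reg2.of_left S₁.N M (by omega)
          exact hreg1 k h1 hk _ _ _ M (by rw [T.dim_prod, hP2]; omega) hX
        · apply Reg2.of_right M S₁.N (by omega)
          exact hreg1 k h1 hk _ _ M _ hX (by rw [T.dim_prod, hP2]; omega)

/-- the converse: the Kuenneth standard conjecture for sections of products -/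
theorem kunneth_of_lefB_box {A B : V} {N : G.Bund A} {M : G.Bund B} (hd : 2 ≤ T.dim (A ⊗ B))
    (hA : G.LefB N) (hB : G.LefB M) (S : Sect R (G.c (G.box N M))) (L : G.Bund S.Y)
    (hL : G.c L = T.pull S.i (G.c (G.box N M))) : R.KunnethC S.Y := by
  have h1 : G.LefB (G.box N M) :=
    G.lefB_of_lef _ (Pl.lef_prod (G.lef_of_lefB N hA) (G.lef_of_lefB M hB))
  exact G.kunneth_of_lefB L (S.lefB L hL hd h1)

theorem Cyc.KunnethC.splits {X : V} (h : R.KunnethC X) {i j : ℕ} (hij : i ≠ j) :
    R.Splits X i j := by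
  obtain ⟨z, hz, h1, h2⟩ := h i
  exact ⟨_, Cyc.act_mem_Op hz, h1, h2 j (Ne.symm hij)⟩

theorem Cyc.Sign.splits {X : V} (h : R.Sign X) {i j : ℕ} (hij : Odd (i + j)) :
    R.Splits X i j := by
  obtain ⟨z, hz, h1, h2⟩ := h
  have key : ∀ i j, Even i → Odd j → R.Splits X i j := by
    rintro i j ⟨k, rfl⟩ ⟨l, rfl⟩
    exact ⟨_, Cyc.act_mem_Op hz, fun a ha => h1 k a (T.deg_of_eq ha (by omega)), h2 l⟩
  rcases Nat.even_or_odd i with hi | hi
  · exact key i j hi ((Nat.odd_add'.mp hij).mpr hi)
  · exact (key j i ((Nat.odd_add.mp hij).mp hi) hi).symm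

/-- the zero-one law: if `B` fails in dimension at most `n`, then there are `A`, `B` such that
no consecutive degrees of `P × Y` in the middle range are separated, for all very general
sections `Y` of `A × B` and all `P` -/
theorem zero_one (hR : R.Div) (hS : Sections G) (hc : Conn T) {n : ℕ} (hn : 1 ≤ n)
    (hno : ¬ ∀ (X : V) (M : G.Bund X), T.dim X ≤ n → G.LefB M) :
    ∃ (A B : V) (N : G.Bund A) (M : G.Bund B), T.dim A = n ∧ T.dim B = n ∧
      ∀ (S : Sect R (G.c (G.box N M))) (P : V) (k : ℕ), T.dim S.Y ≤ k + 1 →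
        k ≤ T.dim S.Y + 2 * T.dim P → ¬ R.Splits (P ⊗ S.Y) k (k + 1) := by
  by_contra hcon
  push Not at hcon
  apply hno
  intro X M hX
  refine lefB_of_splits hR hS hc (n := n) ?_ (T.dim X) hX X M rfl
  intro A B N M hA hB
  obtain ⟨S, P, k, hk, hk', h⟩ := hcon A B N M hA hB
  obtain ⟨L⟩ := hS.bund P
  have hd := S.dim
  rw [T.dim_prod] at hd
  exact ⟨S, h.mid hR L (tr_pow_ne L (hc P).1 (hc P).2) (by omega) hk hk'⟩

end Pool.Std
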