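import Pool.Agent.Work.StdConj01.Api
import Pool.Agent.Work.StdConj01.Main
import Pool.Agent.Work.StdConj.Conv

/-!
From the axioms to the internal form.
-/

open CategoryTheory MonoidalCategory CartesianMonoidalCategory
open scoped TensorProduct

universe u v w x y b

namespace Pool.Std

open Pool.KC

variable {V : Type u} [Category.{v} V] [CartesianMonoidalCategory V] {K : Type x} [Field K]

namespace WeilCoh

variable {D : WeilCoh.{u, v, w, x} V K}

theorem separated_iff (h : D.IsWeil) (X : V) (i j : ℕ) :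
    D.Separated X i j ↔ (toCyc h).Splits X i j := by
  constructor
  · rintro ⟨z, hz, h1, h2⟩
    exact ⟨_, ⟨z, hz, rfl⟩, fun a ha => (act_eq h z a).trans (h1 a ha),
      fun a ha => (act_eq h z a).trans (h2 a ha)⟩
  · rintro ⟨_, ⟨z, hz, rfl⟩, h1, h2⟩
    exact ⟨z, hz, fun a ha => (act_eq h z a).symm.trans (h1 a ha),
      fun a ha => (act_eq h z a).symm.trans (h2 a ha)⟩

theorem CoefficientsIn.div (h : D.IsWeil) {F : Type y} [Field F] [Algebra F K]
    (hF : D.CoefficientsIn F) : (toCyc h).Div := by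
  intro X a ha Y i e he
  obtain ⟨q, hq⟩ := hF.degree X a ha
  have h1 : (toWeil h).tr X a = algebraMap F K q := hq
  rw [h1, ← map_inv₀]
  exact hF.smul Y i q⁻¹ e he

theorem SignConj.separated [CharZero K] {X : V} (h : D.IsWeil) (hs : D.SignConj X) {i j : ℕ}
    (hij : Odd (i + j)) : D.Separated X i j := by
  rw [separated_iff h]
  exact ((signConj_iff h X).mp hs).splits hij

theorem ModConj.separated {X : V} {g r i j : ℕ} (hs : D.ModConj g r X) (hi : i ≡ r [MOD g])
    (hj : ¬ j ≡ r [MOD g]) : D.Separated X i j := by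
  obtain ⟨z, hz, h1⟩ := hs
  refine ⟨z, hz, fun a ha => ?_, fun a ha => ?_⟩
  · rw [h1 i a ha, if_pos hi]
  · rw [h1 j a ha, if_neg hj]

/-- the Kuenneth projectors give the projectors modulo `g` -/
theorem ConjC.mod (h : D.IsWeil) {X : V} (hC : D.ConjC X) (g r : ℕ) : D.ModConj g r X := by
  classical
  have h1 := (conjC_iff h X).mp hC
  choose z hz h2 h3 using h1
  refine ⟨∑ k ∈ (Finset.range (2 * D.dim X + 1)).filter (fun k => k ≡ r [MOD g]), z k,
    sum_mem fun k _ => hz k, ?_⟩
  intro i a ha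
  rw [← act_eq h, ← (toWeil h).actEquiv_apply, map_sum, LinearMap.sum_apply]
  by_cases hi : i ≤ 2 * D.dim X
  · split_ifs with hir
    · rw [Finset.sum_eq_single i]
      · rw [(toWeil h).actEquiv_apply]
        exact h2 i a ha
      · intro k _ hk
        rw [(toWeil h).actEquiv_apply]
        exact h3 k i (Ne.symm hk) a ha
      · intro hn
        refine absurd ?_ hn
        rw [Finset.mem_filter, Finset.mem_range]
        exact ⟨by omega, hir⟩
    · apply Finset.sum_eq_zero
      intro k hk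
      rw [(toWeil h).actEquiv_apply]
      refine h3 k i ?_ a ha
      rintro rfl
      exact hir (Finset.mem_filter.mp hk).2
  · have ha0 : a = 0 := (toWeil h).deg_eq_zero ha (by
      change 2 * D.dim X < i
      omega)
    rw [ha0]
    simp

end WeilCoh

namespace Polarization

variable {D : WeilCoh.{u, v, w, x} V K} {G : Polarization.{u, v, w, x, b} D} [CharZero K]

/-- the internal form of a hypersurface section -/
noncomputable def Hypersurface.toHyp (h : D.IsWeil) (hP : G.IsPolarized) {X Y : V}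
    {M : G.Bund X} {i : Y ⟶ X} (hV : G.Hypersurface M i) : Hyp (toPl h hP) (X := X) M where
  Y := Y
  i := i
  N := hV.chern.choose
  hN := hV.chern.choose_spec
  r := hV.int.choose
  r_ne := by
    rw [Ne, Rat.cast_eq_zero]
    exact hV.int.choose_spec.1
  dim := hV.dim
  tr := hV.int.choose_spec.2
  weak := hV.weak

theorem sections (h : D.IsWeil) (hP : G.IsPolarized) (hH : G.HasHypersurfaces) :
    Sections (toPl h hP) where
  bund := hP.exists_bundle
  hyp := by
    intro X M hX
    obtain ⟨Y, i, hY⟩ := hH X M hX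
    exact ⟨hY.toHyp h hP⟩

/-- the main theorem, from the separation of the middle degree of sections of products -/
theorem conjB_of_separated {F : Type y} [Field F] [Algebra F K] (h : D.IsWeil)
    (hF : D.CoefficientsIn F) (hc : D.Connected) (hP : G.IsPolarized) (hH : G.HasHypersurfaces)
    {n : ℕ} (hn : 1 ≤ n)
    (hsep : ∀ (A B : V) (N : G.Bund A) (M : G.Bund B), D.dim A = n → D.dim B = n →
      ∃ (Y : V) (i : Y ⟶ A ⊗ B), G.VeryGeneral (G.box N M) i ∧
        D.Separated Y (2 * n - 2) (2 * n - 1)) (X : V) (M : G.Bund X) (hX : D.dim X ≤ n) :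
    G.ConjB M := by
  rw [conjB_iff h hP]
  refine lefB_of_splits (G := toPl h hP) (hF.div h) (sections h hP hH) hc (n := n) ?_ (D.dim X)
    hX X M rfl
  intro A B N M hA hB
  obtain ⟨Y, i, hY, hs⟩ := hsep A B N M hA hB
  refine ⟨hY.toSect h hP, ?_⟩
  have hd : D.dim Y = 2 * n - 1 := by
    have h1 := hY.dim
    have hA' : D.dim A = n := hA
    have hB' : D.dim B = n := hB
    rw [h.kunneth.dim, hA', hB'] at h1
    omega
  have h2 : (WeilCoh.toCyc h).Splits Y (D.dim Y - 1) (D.dim Y) := by
    rw [hd, show 2 * n - 1 - 1 = 2 * n - 2 by omega]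
    exact (WeilCoh.separated_iff h Y _ _).mp hs
  exact h2

theorem conjC_of_conjB_box (h : D.IsWeil) (hP : G.IsPolarized) {A B : V} {N : G.Bund A}
    {M : G.Bund B} (hd : 2 ≤ D.dim A + D.dim B) (hA : G.ConjB N) (hB : G.ConjB M) {Y : V}
    {i : Y ⟶ A ⊗ B} (hY : G.VeryGeneral (G.box N M) i) : D.ConjC Y := by
  rw [conjB_iff h hP] at hA hB
  rw [WeilCoh.conjC_iff h]
  obtain ⟨L, hL⟩ := hY.chern
  refine kunneth_of_lefB_box (G := toPl h hP) ?_ hA hB (hY.toSect h hP) L hL
  change 2 ≤ D.dim (A ⊗ B)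
  rw [h.kunneth.dim]
  exact hd

theorem zero_one {F : Type y} [Field F] [Algebra F K] (h : D.IsWeil)
    (hF : D.CoefficientsIn F) (hc : D.Connected) (hP : G.IsPolarized) (hH : G.HasHypersurfaces)
    {n : ℕ} (hn : 1 ≤ n) (hno : ¬ ∀ (X : V) (M : G.Bund X), D.dim X ≤ n → G.ConjB M) :
    ∃ (A B : V) (N : G.Bund A) (M : G.Bund B), D.dim A = n ∧ D.dim B = n ∧
      ∀ (Y : V) (i : Y ⟶ A ⊗ B), G.VeryGeneral (G.box N M) i → ∀ (P : V) (k : ℕ),
        2 * n - 2 ≤ k → k ≤ 2 * n - 1 + 2 * D.dim P → ¬ D.Separated (P ⊗ Y) k (k + 1) := by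
  obtain ⟨A, B, N, M, hA, hB, h1⟩ := Std.zero_one (G := toPl h hP) (hF.div h)
    (sections h hP hH) hc hn (by
      intro h2
      apply hno
      intro X M hX
      rw [conjB_iff h hP]
      exact h2 X M hX)
  refine ⟨A, B, N, M, hA, hB, ?_⟩
  intro Y i hY P k hk hk' hs
  have hd : D.dim Y = 2 * n - 1 := by
    have h1 := hY.dim
    have hA' : D.dim A = n := hA
    have hB' : D.dim B = n := hB
    rw [h.kunneth.dim, hA', hB'] at h1
    omega
  refine h1 (hY.toSect h hP) P k ?_ ?_ ?_
  · change D.dim Y ≤ k + 1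
    omega
  · change k ≤ D.dim Y + 2 * D.dim P
    omega
  · exact (WeilCoh.separated_iff h (P ⊗ Y) k (k + 1)).mp hs

end Polarization

end Pool.Std
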