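import Pool.Agent.Work.StdConj01.Lift

/-!
The operator `Λ` on the strings of length at least two, from hypersurface sections `Y₁ ⊂ Y₀ ⊂ X`
with `B(Y₀)` and the regularity of `Y₁ × X` and `X × Y₁` in weight `-2`.
-/

open CategoryTheory MonoidalCategory CartesianMonoidalCategory

universe u v w x b

namespace Pool.Std

open Pool.KC Pool.SL

variable {V : Type u} [Category.{v} V] [CartesianMonoidalCategory V] {K : Type x} [Field K]
variable {T : WeilTheory.{u, v, w, x} V K} [CharZero K] {R : Cyc T}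

/-- a smooth hypersurface section -/
structure Hyp (G : Pl.{u, v, w, x, b} R) {X : V} (M : G.Bund X) where
  Y : V
  i : Y ⟶ X
  N : G.Bund Y
  hN : G.c N = T.pull i (G.c M)
  r : ℚ
  r_ne : (r : K) ≠ 0
  dim : T.dim Y + 1 = T.dim X
  tr : ∀ a, T.tr Y (T.pull i a) = (r : K) * T.tr X (a * G.c M)
  weak : ∀ j < T.dim Y, ∀ y ∈ T.deg Y j, ∃ a ∈ T.deg X j, T.pull i a = y

variable {G : Pl.{u, v, w, x, b} R}

namespace Hyp

variable {X : V} {M : G.Bund X} (S : Hyp G M)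

theorem pull_zero {j : ℕ} {ζ : T.H X} (hζ : ζ ∈ T.deg X j) (h : G.c M * ζ = 0) :
    T.pull S.i ζ = 0 := by
  have hd := S.dim
  rcases Nat.lt_or_ge j (T.dim X) with h1 | h1
  · have h2 : ζ = 0 := by
      apply G.hard_inj M (i := j) (k := T.dim X - j) (by omega) _ hζ
      rw [show T.dim X - j = (T.dim X - j - 1) + 1 by omega, pow_succ, mul_assoc, h, mul_zero]
    rw [h2, map_zero]
  · apply T.eq_zero_of_deg (T.pull_deg S.i hζ)
    intro t ht y hy
    obtain ⟨a, _, rfl⟩ := S.weak t (by omega) y hy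
    rw [← map_mul, S.tr, mul_assoc, ← G.c_comm, h, mul_zero, map_zero, mul_zero]

theorem pull_pow (j : ℕ) (a : T.H X) :
    T.pull S.i (G.c M ^ j * a) = G.c S.N ^ j * T.pull S.i a := by
  rw [S.hN, map_mul, map_pow]

/-- restrictions of primitive classes are primitive -/
theorem prim_pull {d : ℕ} {p : T.H X} (hp : G.Prim M d p) (hd : d < T.dim X) :
    G.Prim S.N d (T.pull S.i p) := by
  have hdim := S.dim
  obtain ⟨h1, h2, h3⟩ := hp
  refine ⟨by omega, T.pull_deg _ h2, ?_⟩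
  rw [← S.pull_pow]
  apply S.pull_zero (T.mul_deg (G.c_pow_deg M _) h2)
  rw [← mul_assoc, ← pow_succ', show T.dim S.Y - d + 1 + 1 = T.dim X - d + 1 by omega, h3]

theorem pull_mid {p : T.H X} (hp : G.Prim M (T.dim X) p) : T.pull S.i p = 0 := by
  obtain ⟨h1, h2, h3⟩ := hp
  apply S.pull_zero h2
  rw [Nat.sub_self, zero_add, pow_one] at h3
  exact h3

/-- the restriction of a primitive class, in all degrees -/
theorem prim_or {d : ℕ} {p : T.H X} (hp : G.Prim M d p) :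
    (d < T.dim X ∧ G.Prim S.N d (T.pull S.i p)) ∨ (d = T.dim X ∧ T.pull S.i p = 0) := by
  rcases Nat.lt_or_ge d (T.dim X) with h | h
  · exact Or.inl ⟨h, S.prim_pull hp h⟩
  · have h1 : d = T.dim X := le_antisymm hp.1 h
    subst h1
    exact Or.inr ⟨rfl, S.pull_mid hp⟩

/-- the push-forward -/
theorem exists_J : ∃ J ∈ R.Op S.Y X (T.dim X),
    (∀ x, J (T.pull S.i x) = (S.r : K) • (G.c M * x)) ∧ ∀ y, J (G.c S.N * y) = G.c M * J y := by
  obtain ⟨J, h1, h2, h3⟩ := exists_push (R := R) S.i S.dim (G.c_deg M) S.tr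
  exact ⟨J, h1, h2, by rw [S.hN]; exact h3⟩

/-- primitive classes of `Y` below the middle come from `X` -/
theorem exists_prim {d : ℕ} {q : T.H S.Y} (hq : G.Prim S.N d q) (hd : d < T.dim S.Y) :
    ∃ p, G.Prim M d p ∧ T.pull S.i p = q := by
  have hdim := S.dim
  obtain ⟨J, _, hJ1, hJ2⟩ := S.exists_J
  obtain ⟨h1, h2, h3⟩ := hq
  obtain ⟨p, hp, rfl⟩ := S.weak d hd q h2
  refine ⟨p, ⟨by omega, hp, ?_⟩, rfl⟩
  have h4 := hJ1 (G.c M ^ (T.dim S.Y - d + 1) * p)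
  rw [S.pull_pow, h3, map_zero, ← mul_assoc, ← pow_succ',
    show T.dim S.Y - d + 1 + 1 = T.dim X - d + 1 by omega] at h4
  exact (smul_eq_zero.mp h4.symm).resolve_left S.r_ne

/-- the image of the push-forward consists of multiples of `c` -/
theorem exists_mul {J : T.H S.Y →ₗ[K] T.H X} (hJ : J ∈ R.Op S.Y X (T.dim X))
    (hJ1 : ∀ x, J (T.pull S.i x) = (S.r : K) • (G.c M * x)) (a : T.H S.Y) :
    ∃ x, J a = G.c M * x := by
  have hd := S.dim
  refine T.hind (P := fun a => ∃ x, J a = G.c M * x) ⟨0, by simp⟩ ?_ ?_ a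
  · intro s a ha
    rcases Nat.lt_or_ge s (T.dim S.Y) with h | h
    · obtain ⟨x, _, rfl⟩ := S.weak s h a ha
      exact ⟨(S.r : K) • x, by rw [hJ1, mul_smul_comm]⟩
    · have h1 : J a ∈ T.deg X (s + 2) := Cyc.Op_deg hJ (by omega) ha
      rcases Nat.lt_or_ge (2 * T.dim X) (s + 2) with h2 | h2
      · exact ⟨0, by rw [T.deg_eq_zero h1 h2, mul_zero]⟩
      · obtain ⟨e, _, he⟩ := G.hard_surj M (i := 2 * T.dim X - (s + 2))
          (k := s + 2 - T.dim X) (by omega) _ (T.deg_of_eq h1 (by omega))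
        refine ⟨G.c M ^ (s + 2 - T.dim X - 1) * e, ?_⟩
        rw [← he, ← mul_assoc, ← pow_succ']
        congr 2
        omega
  · rintro a e ⟨x, hx⟩ ⟨y, hy⟩
    exact ⟨x + y, by rw [map_add, hx, hy, mul_add]⟩

end Hyp

/-- the operator `Λ` on the strings of length at least two, `0` on the others -/
def HighLam {X : V} (M : G.Bund X) : Prop :=
  ∃ l ∈ R.Op X X (T.dim X - 1), ∀ (d : ℕ) (p : T.H X), G.Prim M d p → l p = 0 ∧
    ∀ j : ℕ, d + (j + 1) ≤ T.dim X → (d + 2 ≤ T.dim X → l (G.c M ^ (j + 1) * p) = G.c M ^ j * p) ∧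
      (T.dim X < d + 2 → l (G.c M ^ (j + 1) * p) = 0)

section Kappa

variable {X : V} {M : G.Bund X} (S₀ : Hyp G M) (S₁ : Hyp G S₀.N)

/-- the operator `c^j p ↦ c^(j-1) p`, except at the top of the strings -/
theorem exists_low (hX : 3 ≤ T.dim X) (hB : G.LefB S₀.N)
    (hreg : Reg2 R (G.c (G.box S₁.N M))) :
    ∃ l ∈ R.Op X X (T.dim X - 1), ∀ (d : ℕ) (p : T.H X), G.Prim M d p → l p = 0 ∧
      ∀ j : ℕ, (d + (j + 1) < T.dim X → l (G.c M ^ (j + 1) * p) = G.c M ^ j * p) ∧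
        (d + (j + 1) = T.dim X → l (G.c M ^ (j + 1) * p) = 0) := by
  have hd0 := S₀.dim
  have hd1 := S₁.dim
  obtain ⟨z0, hz0, hl0⟩ := hB
  obtain ⟨lam, hlam, hlamd, -⟩ := exists_lam (G := G) M
  obtain ⟨J0, hJ0, hJ01, hJ02⟩ := S₀.exists_J
  obtain ⟨J1, hJ1, hJ11, hJ12⟩ := S₁.exists_J
  set L0 := T.act z0 with hL0
  have hL0op : L0 ∈ R.Op S₀.Y S₀.Y (T.dim S₀.Y - 1) := Cyc.act_mem_Op hz0
  set κ : T.H S₁.Y →ₗ[K] T.H X := lam ∘ₗ J0 ∘ₗ L0 ∘ₗ J1 with hκ
  have hκa : ∀ a, κ a = lam (J0 (L0 (J1 a))) := fun _ => rfl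
  set f : T.H S₁.Y →ₗ[K] T.H X :=
    J0 ∘ₗ L0 ∘ₗ J1 + J0 ∘ₗ L0 ∘ₗ L0 ∘ₗ LinearMap.mulLeft K (G.c S₀.N) ∘ₗ J1 with hf
  have hfa : ∀ a, f a = J0 (L0 (J1 a)) + J0 (L0 (L0 (G.c S₀.N * J1 a))) := fun _ => rfl
  have hfop : f ∈ R.Op S₁.Y X (T.dim X - 1) := by
    have hm := Cyc.Op_mul (R := R) (G.c_mem S₀.N)
    apply add_mem
    · have e1 := Cyc.Op_comp hJ1 hL0op (t := T.dim S₀.Y - 1) (by omega)
      exact Cyc.Op_comp e1 hJ0 (by omega)
    · have e1 := Cyc.Op_comp hJ1 hm (t := T.dim S₀.Y + 1) (by omega)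
      have e2 := Cyc.Op_comp e1 hL0op (t := T.dim S₀.Y) (by omega)
      have e3 := Cyc.Op_comp e2 hL0op (t := T.dim S₀.Y - 1) (by omega)
      exact Cyc.Op_comp e3 hJ0 (by omega)
  -- the relation on multiples of `c` in `H(Y₀)`
  have key : ∀ x : T.H S₀.Y, G.c M * lam (J0 (L0 (G.c S₀.N * x))) +
      lam (J0 (L0 (G.c S₀.N * (G.c S₀.N * x)))) =
      J0 (L0 (G.c S₀.N * x)) + J0 (L0 (L0 (G.c S₀.N * (G.c S₀.N * x)))) := by
    intro x
    refine Pl.prim_ind S₀.N (P := fun x => G.c M * lam (J0 (L0 (G.c S₀.N * x))) +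
      lam (J0 (L0 (G.c S₀.N * (G.c S₀.N * x)))) =
      J0 (L0 (G.c S₀.N * x)) + J0 (L0 (L0 (G.c S₀.N * (G.c S₀.N * x))))) (by simp) ?_ ?_ x
    · intro d q hq j hj
      rw [← mul_assoc (G.c S₀.N) (G.c S₀.N ^ j) q, ← pow_succ', ← mul_assoc, ← pow_succ']
      rcases Nat.lt_or_ge (T.dim S₀.Y) (d + (j + 1)) with h1 | h1
      · have e1 : G.c S₀.N ^ (j + 1) * q = 0 := hq.pow_eq_zero h1
        have e2 : G.c S₀.N ^ (j + 1 + 1) * q = 0 := hq.pow_eq_zero (by omega)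
        rw [e1, e2]
        simp
      · obtain ⟨p, hp, rfl⟩ := S₀.exists_prim hq (by omega)
        have e1 := (hl0 d _ hq).2 j h1
        have e3 : ∀ t, J0 (G.c S₀.N ^ t * T.pull S₀.i p) = (S₀.r : K) • (G.c M ^ (t + 1) * p) := by
          intro t
          rw [← S₀.pull_pow, hJ01, ← mul_assoc, ← pow_succ']
        rw [e1, e3, map_smul, (hlam d p hp).2 j (by omega), mul_smul_comm, ← mul_assoc, ← pow_succ']
        rcases Nat.lt_or_ge (T.dim S₀.Y) (d + (j + 1 + 1)) with h2 | h2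
        · have e2 : G.c S₀.N ^ (j + 1 + 1) * T.pull S₀.i p = 0 := hq.pow_eq_zero h2
          rw [e2]
          simp
        · rw [(hl0 d _ hq).2 (j + 1) h2, e3, e1, e3, map_smul, (hlam d p hp).2 (j + 1) (by omega)]
    · intro a e h1 h2
      simp only [mul_add, map_add]
      rw [← sub_eq_zero] at h1 h2 ⊢
      calc _ = (G.c M * lam (J0 (L0 (G.c S₀.N * a))) + lam (J0 (L0 (G.c S₀.N * (G.c S₀.N * a)))) -
            (J0 (L0 (G.c S₀.N * a)) + J0 (L0 (L0 (G.c S₀.N * (G.c S₀.N * a)))))) +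
          (G.c M * lam (J0 (L0 (G.c S₀.N * e))) + lam (J0 (L0 (G.c S₀.N * (G.c S₀.N * e)))) -
            (J0 (L0 (G.c S₀.N * e)) + J0 (L0 (L0 (G.c S₀.N * (G.c S₀.N * e)))))) := by abel
        _ = 0 := by rw [h1, h2, add_zero]
  have hrel : ∀ a, G.c M * κ a + κ (G.c S₁.N * a) = f a := by
    intro a
    obtain ⟨x, hx⟩ := S₁.exists_mul hJ1 hJ11 a
    rw [hκa, hκa, hfa, hJ12, hx]
    exact key x
  have hκop : κ ∈ R.Op S₁.Y X (T.dim X - 1 - 1) := by
    refine lift_op S₁.N M (m := T.dim X - 1) (by omega) (by omega) hreg hfop ?_ ?_ hrel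
    · intro i hi
      omega
    · intro i l hil a ha
      have e1 : J1 a ∈ T.deg S₀.Y (i + 2) := Cyc.Op_deg hJ1 (by omega) ha
      have e2 : L0 (J1 a) ∈ T.deg S₀.Y i := Cyc.Op_deg hL0op (by omega) e1
      have e3 : J0 (L0 (J1 a)) ∈ T.deg X (i + 2) := Cyc.Op_deg hJ0 (by omega) e2
      exact T.deg_of_eq (hlamd i _ e3) (by omega)
  -- the operator
  have hop : κ ∘ₗ (T.pull S₁.i).toLinearMap ∘ₗ L0 ∘ₗ (T.pull S₀.i).toLinearMap ∈
      R.Op X X (T.dim X - 1) := by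
    have e1 := Cyc.Op_comp (Cyc.Op_pull (R := R) S₀.i) hL0op (t := T.dim X - 1) (by omega)
    have e2 := Cyc.Op_comp e1 (Cyc.Op_pull (R := R) S₁.i) (t := T.dim X - 1) (by omega)
    exact Cyc.Op_comp e2 hκop (by omega)
  refine ⟨_, Cyc.Op_smul (S₀.r * S₁.r)⁻¹ hop, ?_⟩
  intro d p hp
  have hval : ∀ a, ((((S₀.r * S₁.r)⁻¹ : ℚ) : K) • (κ ∘ₗ (T.pull S₁.i).toLinearMap ∘ₗ L0 ∘ₗ
      (T.pull S₀.i).toLinearMap)) a =
      (((S₀.r * S₁.r)⁻¹ : ℚ) : K) • κ (T.pull S₁.i (L0 (T.pull S₀.i a))) := fun _ => rfl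
  rcases S₀.prim_or hp with ⟨hd, hq⟩ | ⟨hd, hq⟩
  · constructor
    · rw [hval, (hl0 d _ hq).1, map_zero, map_zero, smul_zero]
    · intro j
      constructor
      · intro hj
        rw [hval, S₀.pull_pow, (hl0 d _ hq).2 j (by omega), hκa, hJ11, map_smul, ← mul_assoc,
          ← pow_succ', (hl0 d _ hq).2 j (by omega), map_smul, ← S₀.pull_pow, hJ01, ← mul_assoc,
          ← pow_succ', map_smul, map_smul, (hlam d p hp).2 j (by omega), smul_smul, smul_smul]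
        rw [show ((((S₀.r * S₁.r)⁻¹ : ℚ) : K) * (S₁.r : K) * (S₀.r : K) : K) = 1 by
          rw [Rat.cast_inv, Rat.cast_mul, mul_assoc, mul_comm (S₁.r : K),
            inv_mul_cancel₀ (mul_ne_zero S₀.r_ne S₁.r_ne)], one_smul]
      · intro hj
        rw [hval, S₀.pull_pow, hq.pow_eq_zero (by omega), map_zero, map_zero, map_zero, smul_zero]
  · constructor
    · rw [hval, hq, map_zero, map_zero, map_zero, smul_zero]
    · intro j
      refine ⟨fun hj => by omega, fun hj => by omega⟩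

/-- the operator `c^j p ↦ c^(j-1) p` for `2 ≤ j` -/
theorem exists_up (hX : 3 ≤ T.dim X) (hB : G.LefB S₀.N)
    (hreg : Reg2 R (G.c (G.box M S₁.N))) :
    ∃ l ∈ R.Op X X (T.dim X - 1), ∀ (d : ℕ) (p : T.H X), G.Prim M d p → l p = 0 ∧
      l (G.c M * p) = 0 ∧ ∀ j : ℕ, d + (j + 2) ≤ T.dim X →
        l (G.c M ^ (j + 2) * p) = G.c M ^ (j + 1) * p := by
  have hd0 := S₀.dim
  have hd1 := S₁.dim
  obtain ⟨z0, hz0, hl0⟩ := hB
  obtain ⟨lam, hlam, hlamd, hlam2⟩ := exists_lam (G := G) M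
  obtain ⟨J0, hJ0, hJ01, hJ02⟩ := S₀.exists_J
  obtain ⟨J1, hJ1, hJ11, hJ12⟩ := S₁.exists_J
  set L0 := T.act z0 with hL0
  have hL0op : L0 ∈ R.Op S₀.Y S₀.Y (T.dim S₀.Y - 1) := Cyc.act_mem_Op hz0
  set κ : T.H X →ₗ[K] T.H S₁.Y :=
    (T.pull S₁.i).toLinearMap ∘ₗ (T.pull S₀.i).toLinearMap ∘ₗ lam ∘ₗ lam with hκ
  have hκa : ∀ a, κ a = T.pull S₁.i (T.pull S₀.i (lam (lam a))) := fun _ => rfl
  set f : T.H X →ₗ[K] T.H S₁.Y :=
    (T.pull S₁.i).toLinearMap ∘ₗ L0 ∘ₗ (T.pull S₀.i).toLinearMap +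
    (T.pull S₁.i).toLinearMap ∘ₗ LinearMap.mulLeft K (G.c S₀.N) ∘ₗ L0 ∘ₗ L0 ∘ₗ
      (T.pull S₀.i).toLinearMap with hf
  have hfa : ∀ a, f a = T.pull S₁.i (L0 (T.pull S₀.i a)) +
      T.pull S₁.i (G.c S₀.N * L0 (L0 (T.pull S₀.i a))) := fun _ => rfl
  have hfop : f ∈ R.Op X S₁.Y (T.dim X - 1) := by
    have hm := Cyc.Op_mul (R := R) (G.c_mem S₀.N)
    have e1 := Cyc.Op_comp (Cyc.Op_pull (R := R) S₀.i) hL0op (t := T.dim X - 1) (by omega)
    apply add_mem
    · exact Cyc.Op_comp e1 (Cyc.Op_pull (R := R) S₁.i) (by omega)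
    · have e2 := Cyc.Op_comp e1 hL0op (t := T.dim X - 2) (by omega)
      have e3 := Cyc.Op_comp e2 hm (t := T.dim X - 1) (by omega)
      exact Cyc.Op_comp e3 (Cyc.Op_pull (R := R) S₁.i) (by omega)
  -- values of `κ` on strings
  have hκ0 : ∀ (d : ℕ) (p : T.H X), G.Prim M d p → κ p = 0 := by
    intro d p hp
    rw [hκa, (hlam d p hp).1]
    simp
  have hκ1 : ∀ (d : ℕ) (p : T.H X), G.Prim M d p → κ (G.c M * p) = 0 := by
    intro d p hp
    rcases Nat.lt_or_ge (T.dim X) (d + 1) with h1 | h1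
    · have e1 := hp.pow_eq_zero h1
      rw [pow_one] at e1
      rw [e1, map_zero]
    · have e1 := (hlam d p hp).2 0 (by omega)
      rw [zero_add, pow_one, pow_zero, one_mul] at e1
      rw [hκa, e1, (hlam d p hp).1]
      simp
  have hκ2 : ∀ (d : ℕ) (p : T.H X), G.Prim M d p → ∀ j, d + (j + 2) ≤ T.dim X →
      κ (G.c M ^ (j + 2) * p) = T.pull S₁.i (G.c S₀.N ^ j * T.pull S₀.i p) := by
    intro d p hp j hj
    rw [hκa, (hlam d p hp).2 (j + 1) (by omega), (hlam d p hp).2 j (by omega), S₀.pull_pow]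
  have hrel : ∀ a, G.c S₁.N * κ a + κ (G.c M * a) = f a := by
    intro a
    refine Pl.prim_ind M (P := fun a => G.c S₁.N * κ a + κ (G.c M * a) = f a) (by simp) ?_ ?_ a
    · intro d p hp j hj
      have hpow : G.c M * (G.c M ^ j * p) = G.c M ^ (j + 1) * p := by
        rw [← mul_assoc, ← pow_succ']
      rw [hpow]
      rcases S₀.prim_or hp with ⟨hd, hq⟩ | ⟨hd, hq⟩
      · rcases j with _ | j
        · -- `j = 0`
          rw [pow_zero, one_mul, zero_add, pow_one, hκ0 d p hp, hκ1 d p hp, hfa,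
            (hl0 d _ hq).1]
          simp
        · -- `j ≥ 1`
          rcases Nat.lt_or_ge (d + (j + 1)) (T.dim X) with h1 | h1
          · -- below the top
            have e1 := (hl0 d _ hq).2 j (by omega)
            rw [hfa, S₀.pull_pow, e1, hκ2 d p hp j (by omega)]
            rcases j with _ | j
            · rw [zero_add, pow_one, pow_zero, one_mul, hκ1 d p hp, (hl0 d _ hq).1]
              simp
            · rw [hκ2 d p hp j (by omega), (hl0 d _ hq).2 j (by omega), S₁.hN, ← map_mul,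
                add_comm]
          · -- the top
            have h2 : d + (j + 1) = T.dim X := by omega
            have e1 : G.c S₀.N ^ (j + 1) * T.pull S₀.i p = 0 := hq.pow_eq_zero (by omega)
            have e2 : G.c M ^ (j + 1 + 1) * p = 0 := hp.pow_eq_zero (by omega)
            rw [hfa, S₀.pull_pow, e1, e2]
            simp only [map_zero, mul_zero, add_zero]
            rcases j with _ | j
            · rw [zero_add, pow_one, hκ1 d p hp, mul_zero]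
            · rw [hκ2 d p hp j (by omega), S₁.hN, ← map_mul, ← mul_assoc, ← pow_succ']
              apply S₁.pull_zero (T.mul_deg (G.c_pow_deg S₀.N _) hq.2.1)
              rw [← mul_assoc, ← pow_succ', e1]
      · -- the middle degree
        have hj0 : j = 0 := by omega
        subst hj0
        rw [pow_zero, one_mul, zero_add, pow_one, hκ0 d p hp, hκ1 d p hp, hfa, hq]
        simp
    · intro a e h1 h2
      rw [mul_add, map_add, map_add, map_add, mul_add, ← h1, ← h2]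
      abel
  have hκop : κ ∈ R.Op X S₁.Y (T.dim X - 1 - 1) := by
    refine lift_op M S₁.N (m := T.dim X - 1) (by omega) (by omega) hreg hfop ?_ ?_ hrel
    · intro i hi a ha
      rw [hκa]
      rcases Nat.lt_or_ge i 2 with h1 | h1
      · rw [hlam2 i h1 a ha]
        simp
      · have e1 : lam a ∈ T.deg X (i - 2) := hlamd (i - 2) a (T.deg_of_eq ha (by omega))
        rw [hlam2 (i - 2) (by omega) _ e1]
        simp
    · intro i l hil a ha
      have e1 : lam a ∈ T.deg X (l + 2) := hlamd (l + 2) a (T.deg_of_eq ha (by omega))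
      exact T.pull_deg _ (T.pull_deg _ (hlamd l _ e1))
  have hop : J0 ∘ₗ L0 ∘ₗ J1 ∘ₗ κ ∈ R.Op X X (T.dim X - 1) := by
    have e1 := Cyc.Op_comp hκop hJ1 (t := T.dim X - 1) (by omega)
    have e2 := Cyc.Op_comp e1 hL0op (t := T.dim X - 2) (by omega)
    exact Cyc.Op_comp e2 hJ0 (by omega)
  refine ⟨_, Cyc.Op_smul (S₀.r * S₁.r)⁻¹ hop, ?_⟩
  intro d p hp
  have hval : ∀ a, ((((S₀.r * S₁.r)⁻¹ : ℚ) : K) • (J0 ∘ₗ L0 ∘ₗ J1 ∘ₗ κ)) a =
      (((S₀.r * S₁.r)⁻¹ : ℚ) : K) • J0 (L0 (J1 (κ a))) := fun _ => rfl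
  refine ⟨by rw [hval, hκ0 d p hp]; simp, by rw [hval, hκ1 d p hp]; simp, ?_⟩
  intro j hj
  have hq := S₀.prim_pull hp (by omega)
  rw [hval, hκ2 d p hp j hj, hJ11, map_smul, ← mul_assoc, ← pow_succ',
    (hl0 d _ hq).2 j (by omega), map_smul, ← S₀.pull_pow, hJ01, ← mul_assoc, ← pow_succ',
    smul_smul, smul_smul]
  rw [show ((((S₀.r * S₁.r)⁻¹ : ℚ) : K) * (S₁.r : K) * (S₀.r : K) : K) = 1 by
    rw [Rat.cast_inv, Rat.cast_mul, mul_assoc, mul_comm (S₁.r : K),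
      inv_mul_cancel₀ (mul_ne_zero S₀.r_ne S₁.r_ne)], one_smul]

theorem highLam_of_sections (hX : 3 ≤ T.dim X) (hB : G.LefB S₀.N)
    (hreg : Reg2 R (G.c (G.box S₁.N M))) (hreg' : Reg2 R (G.c (G.box M S₁.N))) :
    HighLam M := by
  obtain ⟨l, hl, h1⟩ := exists_low S₀ S₁ hX hB hreg
  obtain ⟨l', hl', h2⟩ := exists_up S₀ S₁ hX hB hreg'
  have hm := Cyc.Op_mul (R := R) (G.c_mem M)
  have hop : l + l' - l ∘ₗ LinearMap.mulLeft K (G.c M) ∘ₗ l' ∈
      R.Op X X (T.dim X - 1) := by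
    apply sub_mem (add_mem hl hl')
    have e1 := Cyc.Op_comp hl' hm (t := T.dim X) (by omega)
    exact Cyc.Op_comp e1 hl (by omega)
  refine ⟨_, hop, ?_⟩
  have hval : ∀ a, (l + l' - l ∘ₗ LinearMap.mulLeft K (G.c M) ∘ₗ l') a =
      l a + l' a - l (G.c M * l' a) := fun _ => rfl
  intro d p hp
  constructor
  · rw [hval, (h1 d p hp).1, (h2 d p hp).1, mul_zero, map_zero]
    simp
  · intro j hj
    constructor
    · intro hd
      rcases j with _ | j
      · have e1 := ((h1 d p hp).2 0).1 (by omega)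
        rw [hval, e1, zero_add, pow_one, (h2 d p hp).2.1, mul_zero, map_zero]
        simp
      · have e2 := (h2 d p hp).2.2 j (by omega)
        rw [hval, e2, ← mul_assoc, ← pow_succ']
        rcases Nat.lt_or_ge (d + (j + 1 + 1)) (T.dim X) with h3 | h3
        · rw [((h1 d p hp).2 (j + 1)).1 h3]
          simp
        · rw [((h1 d p hp).2 (j + 1)).2 (by omega)]
          simp
    · intro hd
      have hj0 : j = 0 := by omega
      subst hj0
      have e1 := ((h1 d p hp).2 0).2 (by omega)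
      rw [hval, e1, zero_add, pow_one, (h2 d p hp).2.1, mul_zero, map_zero]
      simp

end Kappa

end Pool.Std
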