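import Pool.Agent.Work.StdConj.Hyper
import Pool.Agent.Work.MP_a60482_h14.Gap

/-!
The operator `Λ` of the Lefschetz decomposition exists in cohomology; operators `κ` with
`L κ + κ L` algebraic are algebraic.
-/

open CategoryTheory MonoidalCategory CartesianMonoidalCategory

universe u v w x b

namespace Pool.Std

open Pool.KC Pool.SL

variable {V : Type u} [Category.{v} V] [CartesianMonoidalCategory V] {K : Type x} [Field K]
variable {T : WeilTheory.{u, v, w, x} V K}

/-- stable under division by the degrees of algebraic zero-cycles -/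
def Cyc.Div (R : Cyc T) : Prop :=
  ∀ (X : V), ∀ a ∈ R.A X (T.dim X), ∀ (Y : V) (i : ℕ), ∀ e ∈ R.A Y i, (T.tr X a)⁻¹ • e ∈ R.A Y i

theorem Cyc.Div.op {R : Cyc T} (hR : R.Div) {X Y Z : V} {r : ℕ} {a : T.H Z}
    (ha : a ∈ R.A Z (T.dim Z)) {f : T.H X →ₗ[K] T.H Y} (hf : f ∈ R.Op X Y r) :
    (T.tr Z a)⁻¹ • f ∈ R.Op X Y r := by
  obtain ⟨z, hz, rfl⟩ := hf
  exact ⟨_, hR Z a ha _ _ z hz, T.act_smul _ _⟩

/-- the operator `Λ` in cohomology -/
theorem exists_lam {R : Cyc T} {G : Pl.{u, v, w, x, b} R} {X : V} (M : G.Bund X) :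
    ∃ lam : Module.End K (T.H X),
      (∀ (i : ℕ) (y : T.H X), G.Prim M i y → lam y = 0 ∧
        ∀ j : ℕ, i + (j + 1) ≤ T.dim X → lam (G.c M ^ (j + 1) * y) = G.c M ^ j * y) ∧
      (∀ i, ∀ a ∈ T.deg X (i + 2), lam a ∈ T.deg X i) ∧
      (∀ i < 2, ∀ a ∈ T.deg X i, lam a = 0) := by
  classical
  set n := T.dim X with hn
  have hcd := G.c_deg M
  have hex : ∀ i : ℕ, ∃ l : Module.End K (T.H X), i ≤ n →
      ((∀ a ∈ T.deg X i, l (G.c M ^ (n - i) * a) = a) ∧
        ∀ a ∈ T.deg X (i + 2 * (n - i)), G.c M ^ (n - i) * l a = a) := by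
    intro i
    by_cases hi : i ≤ n
    · obtain ⟨l, h1, h2⟩ := (G.hard M).exists_inv hcd (i := i) (k := n - i) (by omega)
      exact ⟨l, fun _ => ⟨h1, h2⟩⟩
    · exact ⟨0, fun h => absurd h hi⟩
  choose θ hθ using hex
  -- the inverse has values in degree `i`
  have hθd : ∀ i ≤ n, ∀ a ∈ T.deg X (i + 2 * (n - i)), θ i a ∈ T.deg X i := by
    intro i hi a ha
    obtain ⟨e, he, hea⟩ := G.hard_surj M (i := i) (k := n - i) (by omega) a ha
    rw [← hea, (hθ i hi).1 e he]
    exact he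
  let piece : ℕ → Module.End K (T.H X) := fun s =>
    if s < 2 then 0 else if s ≤ n then θ (s - 2) ∘ₗ LinearMap.mulLeft K (G.c M ^ (n - s + 1))
    else LinearMap.mulLeft K (G.c M ^ (s - n - 1)) ∘ₗ θ (2 * n - s)
  let lam : Module.End K (T.H X) :=
    ∑ s ∈ Finset.range (2 * n + 1), piece s ∘ₗ T.proj X s
  have hlam : ∀ s, s ≤ 2 * n → ∀ a ∈ T.deg X s, lam a = piece s a := by
    intro s hs a ha
    change (∑ s ∈ Finset.range (2 * n + 1), piece s ∘ₗ T.proj X s) a = _
    rw [LinearMap.sum_apply, Finset.sum_eq_single s]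
    · rw [LinearMap.comp_apply, T.proj_same ha]
    · intro t _ hts
      rw [LinearMap.comp_apply, T.proj_ne ha (Ne.symm hts), map_zero]
    · intro h
      exact absurd (Finset.mem_range.2 (by omega)) h
  have hp0 : ∀ s < 2, ∀ a, piece s a = 0 := by
    intro s hs a
    simp only [piece, if_pos hs]
    rfl
  have hp1 : ∀ s, 2 ≤ s → s ≤ n → ∀ a, piece s a = θ (s - 2) (G.c M ^ (n - s + 1) * a) := by
    intro s hs hs' a
    simp only [piece, if_neg (show ¬ s < 2 by omega), if_pos hs']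
    rfl
  have hp2 : ∀ s, 2 ≤ s → n < s → ∀ a, piece s a = G.c M ^ (s - n - 1) * θ (2 * n - s) a := by
    intro s hs hs' a
    simp only [piece, if_neg (show ¬ s < 2 by omega), if_neg (show ¬ s ≤ n by omega)]
    rfl
  refine ⟨lam, ?_, ?_, ?_⟩
  · intro i y hy
    obtain ⟨hi, hyi, hyk⟩ := hy
    constructor
    · rw [hlam i (by omega) y hyi]
      rcases Nat.lt_or_ge i 2 with h2 | h2
      · exact hp0 i h2 y
      · rw [hp1 i h2 hi, ← hn] at *
        rw [hyk, map_zero]
    · intro j hj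
      have hdj : ∀ t, G.c M ^ t * y ∈ T.deg X (2 * t + i) := fun t =>
        T.mul_deg (G.c_pow_deg M t) hyi
      have h1 : G.c M ^ (j + 1) * y ∈ T.deg X (i + 2 * (j + 1)) :=
        T.deg_of_eq (hdj (j + 1)) (by omega)
      rw [hlam (i + 2 * (j + 1)) (by omega) _ h1]
      rcases Nat.lt_or_ge n (i + 2 * (j + 1)) with h3 | h3
      · rw [hp2 _ (by omega) h3]
        obtain ⟨t, ht⟩ : ∃ t, i + 2 * (j + 1) = n + t := ⟨i + 2 * (j + 1) - n, by omega⟩
        have h4 : G.c M ^ (j + 1) * y =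
            G.c M ^ (n - (2 * n - (i + 2 * (j + 1)))) * (G.c M ^ (j + 1 - t) * y) := by
          rw [← mul_assoc, ← pow_add]
          congr 2
          omega
        rw [h4, (hθ _ (by omega)).1 _ (T.deg_of_eq (hdj (j + 1 - t)) (by omega)), ← mul_assoc,
          ← pow_add]
        congr 2
        omega
      · rw [hp1 _ (by omega) h3]
        have h4 : G.c M ^ (n - (i + 2 * (j + 1)) + 1) * (G.c M ^ (j + 1) * y) =
            G.c M ^ (n - (i + 2 * (j + 1) - 2)) * (G.c M ^ j * y) := by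
          rw [← mul_assoc, ← mul_assoc, ← pow_add, ← pow_add]
          congr 2
          omega
        rw [h4, (hθ _ (by omega)).1 _ (T.deg_of_eq (hdj j) (by omega))]
  · intro i a ha
    by_cases hi : i + 2 ≤ 2 * n
    · rw [hlam (i + 2) hi a ha]
      rcases Nat.lt_or_ge n (i + 2) with h3 | h3
      · rw [hp2 _ (by omega) h3]
        have h4 := hθd (2 * n - (i + 2)) (by omega) a (T.deg_of_eq ha (by omega))
        exact T.deg_of_eq (T.mul_deg (G.c_pow_deg M _) h4) (by omega)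
      · rw [hp1 _ (by omega) h3]
        have h4 := T.mul_deg (G.c_pow_deg M (n - (i + 2) + 1)) ha
        exact T.deg_of_eq (hθd (i + 2 - 2) (by omega) _ (T.deg_of_eq h4 (by omega))) (by omega)
    · rw [T.deg_eq_zero ha (by omega), map_zero]
      exact zero_mem _
  · intro i hi a ha
    by_cases hi' : i ≤ 2 * n
    · rw [hlam i hi' a ha, hp0 i hi]
    · rw [T.deg_eq_zero ha (by omega), map_zero]

end Pool.Std
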