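import Pool.Agent.Work.StdConj01.Lam

/-!
Regularity of the Lefschetz operator in weight `-2`, and operators `κ` with `L κ + κ L`
algebraic.
-/

open CategoryTheory MonoidalCategory CartesianMonoidalCategory

universe u v w x b

namespace Pool.Std

open Pool.KC Pool.SL

variable {V : Type u} [Category.{v} V] [CartesianMonoidalCategory V] {K : Type x} [Field K]
variable {T : WeilTheory.{u, v, w, x} V K}

/-- `L g L = L` on the cohomology in degree `dim X - 2`, and `L g L = 0` in degree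
`dim X - 1`, with `g` algebraic -/
def Reg2 (R : Cyc T) {X : V} (c : T.H X) : Prop :=
  ∃ g ∈ R.A (X ⊗ X) (T.dim X - 1),
    (∀ i, i + 2 = T.dim X → ∀ a ∈ T.deg X i, c * T.act g (c * a) = c * a) ∧
    ∀ i, i + 1 = T.dim X → ∀ a ∈ T.deg X i, c * T.act g (c * a) = 0

variable [CharZero K]

/-- the class of an operator homogeneous of degree `d` -/
theorem class_deg {X Y : V} {k : ℕ} {f : T.H X →ₗ[K] T.H Y}
    (h0 : ∀ i, i + k < 2 * T.dim X → ∀ a ∈ T.deg X i, f a = 0)
    (h1 : ∀ i l, i + k = 2 * T.dim X + l → ∀ a ∈ T.deg X i, f a ∈ T.deg Y l) :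
    ∃ z ∈ T.deg (X ⊗ Y) k, T.act z = f := by
  obtain ⟨z, hz⟩ := T.act_surjective (X := X) (Y := Y) f
  refine ⟨T.proj (X ⊗ Y) k z, T.proj_mem _ _, ?_⟩
  rw [← hz]
  apply LinearMap.ext
  intro a
  refine T.hind (P := fun a => T.act (T.proj (X ⊗ Y) k z) a = T.act z a) (by simp) ?_ ?_ a
  · intro i a ha
    have hz0 := T.proj_mem (X := X ⊗ Y) k z
    rcases Nat.lt_or_ge (i + k) (2 * T.dim X) with hi | hi
    · have e1 := h0 i hi a ha
      rw [← hz] at e1
      rw [act_eq_zero T.toCohomology hz0 ha hi, e1]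
    · obtain ⟨l, hl⟩ : ∃ l, i + k = 2 * T.dim X + l := ⟨i + k - 2 * T.dim X, by omega⟩
      have e1 := h1 i l hl a ha
      rw [← hz] at e1
      -- compare after projecting to degree `l`
      rw [← T.proj_same (T.act_deg hz0 hl ha), ← T.proj_same e1]
      -- `z` is the sum of its components
      obtain ⟨s, hs⟩ := T.sum_proj z
      have e2 := hs (s ∪ {k}) Finset.subset_union_left
      conv_rhs => rw [← e2]
      rw [← T.actEquiv_apply, ← T.actEquiv_apply, map_sum, LinearMap.sum_apply, map_sum]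
      rw [Finset.sum_eq_single k]
      · intro j _ hjk
        rw [T.actEquiv_apply]
        rcases Nat.lt_or_ge (i + j) (2 * T.dim X) with hj | hj
        · rw [act_eq_zero T.toCohomology (T.proj_mem j z) ha hj, map_zero]
        · obtain ⟨l', hl'⟩ : ∃ l', i + j = 2 * T.dim X + l' := ⟨i + j - 2 * T.dim X, by omega⟩
          exact T.proj_ne (T.act_deg (T.proj_mem j z) hl' ha) (by omega)
      · intro h
        exact absurd (Finset.mem_union_right _ (Finset.mem_singleton_self k)) h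
  · intro p q h1 h2
    rw [map_add, map_add, h1, h2]

variable {R : Cyc T} {G : Pl.{u, v, w, x, b} R}

/-- **Lifting.** An operator `κ : H(U) → H(X)` of weight `-2` with `L κ + κ L` algebraic is
algebraic, if the Lefschetz operator of `U × X` is regular in weight `-2`. -/
theorem lift_op {U X : V} (N : G.Bund U) (M : G.Bund X) {m : ℕ} (hm : 1 ≤ m)
    (hd : T.dim U + T.dim X = 2 * m) (hreg : Reg2 R (G.c (G.box N M)))
    {f κ : T.H U →ₗ[K] T.H X} (hf : f ∈ R.Op U X m)
    (h0 : ∀ i, i + 2 * (m - 1) < 2 * T.dim U → ∀ a ∈ T.deg U i, κ a = 0)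
    (h1 : ∀ i l, i + 2 * (m - 1) = 2 * T.dim U + l → ∀ a ∈ T.deg U i, κ a ∈ T.deg X l)
    (hrel : ∀ a, G.c M * κ a + κ (G.c N * a) = f a) : κ ∈ R.Op U X (m - 1) := by
  obtain ⟨ζ, hζ, hζa⟩ := class_deg (k := 2 * (m - 1)) h0 h1
  obtain ⟨z, hz, hza⟩ := hf
  have hdW : T.dim (U ⊗ X) = 2 * m := by rw [T.dim_prod, hd]
  have h2 : G.c (G.box N M) * ζ = z := by
    apply T.act_injective
    apply LinearMap.ext
    intro a
    rw [G.c_box, add_mul, T.act_add, LinearMap.add_apply, T.act_fst_mul,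
      T.act_snd_mul (G.c_deg M), ← G.c_comm, hza, ← hrel a, hζa, add_comm]
  obtain ⟨g, hg, hg1, -⟩ := hreg
  have h3 := hg1 (2 * (m - 1)) (by omega) ζ hζ
  have h4 : T.act g z ∈ R.A (U ⊗ X) (m - 1) :=
    R.act_mem (i := m - 1) (j := m) (k := T.dim (U ⊗ X) - 1) hg hz (by omega)
  rw [h2] at h3
  have h6 : T.act g z = ζ := by
    rw [← sub_eq_zero]
    apply G.hard_inj (G.box N M) (i := 2 * (m - 1)) (k := 2) (by omega)
    · exact sub_mem (R.deg h4) hζ
    · rw [pow_two, mul_assoc, mul_sub, h3, h2, sub_self, mul_zero]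
  exact ⟨ζ, by rw [← h6]; exact h4, hζa⟩

end Pool.Std
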