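import Pool.Agent.Work.StdConj01.Split

/-!
From the strings of length at least two to all strings; curves and surfaces.
-/

open CategoryTheory MonoidalCategory CartesianMonoidalCategory

universe u v w x b

namespace Pool.Std

open Pool.KC Pool.SL

variable {V : Type u} [Category.{v} V] [CartesianMonoidalCategory V] {K : Type x} [Field K]
variable {T : WeilTheory.{u, v, w, x} V K} [CharZero K] {R : Cyc T} {G : Pl.{u, v, w, x, b} R}

/-- from the strings of length at least two to all strings -/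
theorem lefB_of_high {X : V} {M : G.Bund X} (hX : 1 ≤ T.dim X) (hl : HighLam M)
    (hs : R.Splits X (T.dim X - 1) (T.dim X)) (hreg : Reg2 R (G.c (G.box M M))) : G.LefB M := by
  obtain ⟨l, hlop, hl⟩ := hl
  obtain ⟨lam, hlam, hlamd, hlam2⟩ := exists_lam (G := G) M
  obtain ⟨F, hFop, hF1, hF2, hF3⟩ := hs.phi hX
  have hm := Cyc.Op_mul (R := R) (G.c_mem M)
  have hid := Cyc.Op_id (R := R) X
  set e : T.H X →ₗ[K] T.H X := (LinearMap.id - LinearMap.mulLeft K (G.c M) ∘ₗ l) ∘ₗ
    (LinearMap.id - l ∘ₗ LinearMap.mulLeft K (G.c M)) with he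
  have heop : e ∈ R.Op X X (T.dim X) := by
    have e1 : l ∘ₗ LinearMap.mulLeft K (G.c M) ∈ R.Op X X (T.dim X) :=
      Cyc.Op_comp hm hlop (by omega)
    have e2 : LinearMap.mulLeft K (G.c M) ∘ₗ l ∈ R.Op X X (T.dim X) :=
      Cyc.Op_comp hlop hm (by omega)
    exact Cyc.Op_comp (sub_mem hid e1) (sub_mem hid e2) (by omega)
  have hea : ∀ a, e a = (a - l (G.c M * a)) - G.c M * l (a - l (G.c M * a)) := fun _ => rfl
  -- values of `e`
  have hpow : ∀ (j : ℕ) (p : T.H X), G.c M * (G.c M ^ j * p) = G.c M ^ (j + 1) * p := by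
    intro j p
    rw [← mul_assoc, ← pow_succ']
  have hhigh : ∀ (d : ℕ) (p : T.H X), G.Prim M d p → d + 2 ≤ T.dim X → ∀ j,
      e (G.c M ^ j * p) = 0 := by
    intro d p hp hd j
    rcases Nat.lt_or_ge (T.dim X) (d + j) with h4 | h4
    · rw [hp.pow_eq_zero h4, map_zero]
    rw [hea, hpow]
    rcases Nat.lt_or_ge (d + j) (T.dim X) with h5 | h5
    · rw [((hl d p hp).2 j (by omega)).1 hd, sub_self, map_zero, mul_zero, sub_zero]
    · rw [hp.pow_eq_zero (show T.dim X < d + (j + 1) by omega), map_zero, sub_zero]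
      obtain ⟨j, rfl⟩ : ∃ j', j = j' + 1 := ⟨j - 1, by omega⟩
      rw [((hl d p hp).2 j (by omega)).1 hd, hpow, sub_self]
  have hlow : ∀ (d : ℕ) (p : T.H X), G.Prim M d p → T.dim X < d + 2 → ∀ j,
      e (G.c M ^ j * p) = G.c M ^ j * p := by
    intro d p hp hd j
    have h0 : ∀ j, l (G.c M ^ j * p) = 0 := by
      intro j
      rcases j with _ | j
      · rw [pow_zero, one_mul, (hl d p hp).1]
      · rcases Nat.lt_or_ge (T.dim X) (d + (j + 1)) with h4 | h4
        · rw [hp.pow_eq_zero h4, map_zero]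
        · exact ((hl d p hp).2 j h4).2 hd
    rw [hea, hpow, h0, sub_zero, h0, mul_zero, sub_zero]
  set ξ : T.H X →ₗ[K] T.H X := lam ∘ₗ e with hξ
  have hξa : ∀ a, ξ a = lam (e a) := fun _ => rfl
  have hrel : ∀ a, G.c M * ξ a + ξ (G.c M * a) = (F ∘ₗ e) a := by
    intro a
    refine Pl.prim_ind M (P := fun a => G.c M * ξ a + ξ (G.c M * a) = (F ∘ₗ e) a)
      (by simp) ?_ ?_ a
    · intro d p hp j hj
      have hd : G.c M ^ j * p ∈ T.deg X (2 * j + d) := T.mul_deg (G.c_pow_deg M j) hp.2.1
      have hcomp : (F ∘ₗ e) (G.c M ^ j * p) = F (e (G.c M ^ j * p)) := rfl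
      rw [hcomp, hpow, hξa, hξa]
      rcases Nat.lt_or_ge (T.dim X) (d + 2) with h4 | h4
      · rw [hlow d p hp h4, hlow d p hp h4]
        rcases Nat.lt_or_ge d (T.dim X) with h5 | h5
        · have h6 : d = T.dim X - 1 := by omega
          have e1 := (hlam d p hp).2 0 (by omega)
          rcases j with _ | j
          · rw [hF1 _ (T.deg_of_eq hd (by omega)), e1, pow_zero, one_mul, (hlam d p hp).1,
              mul_zero, zero_add]
          · have h7 : j = 0 := by omega
            subst h7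
            rw [hF3 _ (T.deg_of_eq hd (by omega)), e1,
              hp.pow_eq_zero (show T.dim X < d + (0 + 1 + 1) by omega), map_zero, add_zero,
              hpow]
        · have h6 : j = 0 := by omega
          subst h6
          have h7 : d = T.dim X := by omega
          rw [hF2 _ (T.deg_of_eq hd (by omega)),
            hp.pow_eq_zero (show T.dim X < d + (0 + 1) by omega), pow_zero, one_mul,
            (hlam d p hp).1, map_zero, mul_zero, add_zero]
      · rw [hhigh d p hp h4, hhigh d p hp h4, map_zero, map_zero, mul_zero, add_zero]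
    · intro a a' h4 h5
      rw [mul_add, map_add, map_add, map_add, mul_add, ← h4, ← h5]
      abel
  have hξop : ξ ∈ R.Op X X (T.dim X - 1) := by
    refine lift_op M M (m := T.dim X) hX (by omega) hreg (f := F ∘ₗ e)
      (Cyc.Op_comp heop hFop (by omega)) ?_ ?_ hrel
    · intro i hi a ha
      have e1 : e a ∈ T.deg X i := Cyc.Op_deg heop (by omega) ha
      rw [hξa, hlam2 i (by omega) _ e1]
    · intro i k hik a ha
      have e1 : e a ∈ T.deg X i := Cyc.Op_deg heop (by omega) ha
      exact hlamd k _ (T.deg_of_eq e1 (by omega))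
  obtain ⟨y, hy, hya⟩ := add_mem hlop hξop
  have hval : ∀ a, T.act y a = l a + lam (e a) := fun a => by rw [hya]; rfl
  refine ⟨y, hy, ?_⟩
  intro d p hp
  rcases Nat.lt_or_ge (T.dim X) (d + 2) with h4 | h4
  · constructor
    · have e1 := hlow d p hp h4 0
      rw [pow_zero, one_mul] at e1
      rw [hval, e1, (hl d p hp).1, (hlam d p hp).1, add_zero]
    · intro j hj
      rw [hval, hlow d p hp h4, ((hl d p hp).2 j hj).2 h4, (hlam d p hp).2 j hj, zero_add]
  · constructor
    · have e1 := hhigh d p hp h4 0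
      rw [pow_zero, one_mul] at e1
      rw [hval, e1, (hl d p hp).1, map_zero, add_zero]
    · intro j hj
      rw [hval, hhigh d p hp h4, ((hl d p hp).2 j hj).1 h4, map_zero, add_zero]

/-- the strings of length two of a surface -/
theorem highLam_surface (hR : R.Div) {X : V} {M : G.Bund X} (hX : T.dim X = 2)
    (hH0 : ∀ a ∈ T.deg X 0, ∃ s : K, a = s • (1 : T.H X)) : HighLam M := by
  by_cases h1 : (1 : T.H X) = 0
  · have h0 : ∀ a : T.H X, a = 0 := fun a => by rw [← mul_one a, h1, mul_zero]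
    exact ⟨0, zero_mem _, fun d p _ => ⟨rfl, fun j _ => ⟨fun _ => by rw [h0 (_ * p)]; exact (h0 _).symm,
      fun _ => rfl⟩⟩⟩
  set c := G.c M with hc
  have hcd : c ∈ T.deg X (2 * 1) := G.c_deg M
  have hc2 : c ^ 2 ∈ T.deg X (2 * 2) := G.c_pow_deg M 2
  have hδ : T.tr X (c * c) ≠ 0 := by
    intro h
    apply h1
    apply G.hard_inj M (i := 0) (k := 2) (by omega) _ T.one_deg
    rw [mul_one]
    apply T.eq_zero_of_deg hc2
    intro j hj a ha
    obtain ⟨s, rfl⟩ := hH0 a (T.deg_of_eq ha (by omega))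
    rw [smul_mul_assoc, one_mul, map_smul, pow_two, h, smul_zero]
  set δ := T.tr X (c * c) with hδd
  have hop : T.act (T.pull (fst X X) c * T.pull (snd X X) 1 +
      T.pull (fst X X) 1 * T.pull (snd X X) c) ∈ R.Op X X (T.dim X - 1) := by
    apply Cyc.act_mem_Op
    apply add_mem
    · exact R.of_eq (R.mul (R.pull _ (G.c_mem M))
        (R.pull _ (R.one X))) (by omega)
    · exact R.of_eq (R.mul (R.pull _ (R.one X))
        (R.pull _ (G.c_mem M))) (by omega)
  have hcc : c * c ∈ R.A X (T.dim X) := R.of_eq (R.mul (G.c_mem M) (G.c_mem M)) (by omega)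
  refine ⟨_, hR.op hcc hop, ?_⟩
  have hval : ∀ a, (δ⁻¹ • T.act (T.pull (fst X X) c * T.pull (snd X X) 1 +
      T.pull (fst X X) 1 * T.pull (snd X X) c)) a =
      δ⁻¹ • (T.tr X (a * c) • (1 : T.H X) + T.tr X a • c) := by
    intro a
    rw [LinearMap.smul_apply, T.act_add, LinearMap.add_apply, T.act_pure, T.act_pure, mul_one]
  intro d p hp
  have hpd := hp.2.1
  -- the value on `c^j p`
  have hv0 : ∀ a, T.tr X (a * c) = 0 → T.tr X a = 0 → (δ⁻¹ • T.act (T.pull (fst X X) c *
      T.pull (snd X X) 1 + T.pull (fst X X) 1 * T.pull (snd X X) c)) a = 0 := by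
    intro a e1 e2
    rw [hval, e1, e2, zero_smul, zero_smul, add_zero, smul_zero]
  have hdd : d = 0 ∨ d = 1 ∨ d = 2 := by
    have := hp.1
    omega
  have hcp : ∀ j, c ^ j * p ∈ T.deg X (2 * j + d) := fun j => T.mul_deg (G.c_pow_deg M j) hpd
  have hcpc : ∀ j, c ^ j * p * c = c ^ (j + 1) * p := by
    intro j
    rw [← G.c_comm, ← mul_assoc, ← pow_succ']
  constructor
  · apply hv0
    · have e1 := hcpc 0
      rw [pow_zero, one_mul, zero_add] at e1
      rw [e1]
      rcases hdd with rfl | rfl | rfl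
      · exact T.tr_deg (hcp 1) (by omega)
      · exact T.tr_deg (hcp 1) (by omega)
      · rw [hp.pow_eq_zero (by omega), map_zero]
    · rcases hdd with rfl | rfl | rfl
      · exact T.tr_deg hpd (by omega)
      · exact T.tr_deg hpd (by omega)
      · exact T.tr_deg hpd (by omega)
  · intro j hj
    constructor
    · intro hd
      have hd0 : d = 0 := by omega
      subst hd0
      obtain ⟨s, rfl⟩ := hH0 p hpd
      have hj' : j = 0 ∨ j = 1 := by omega
      rw [hval]
      rcases hj' with rfl | rfl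
      · rw [hcpc, T.tr_deg (hcp (0 + 1)) (by omega), zero_smul, add_zero, zero_add,
          pow_zero, one_mul, mul_smul_comm, mul_one, map_smul, show (1 + 1 : ℕ) = 2 from rfl,
          pow_two, ← hδd, smul_smul, smul_eq_mul, mul_comm s δ, ← mul_assoc, inv_mul_cancel₀ hδ,
          one_mul]
      · rw [hcpc, hp.pow_eq_zero (by omega), map_zero, zero_smul, zero_add, mul_smul_comm,
          mul_one, map_smul, show (1 + 1 : ℕ) = 2 from rfl, pow_two, ← hδd, smul_smul,
          smul_eq_mul, mul_comm s δ, ← mul_assoc, inv_mul_cancel₀ hδ, one_mul, pow_one,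
          mul_smul_comm, mul_one]
    · intro hd
      apply hv0
      · rw [hcpc, hp.pow_eq_zero (by omega), map_zero]
      · rcases hdd with rfl | rfl | rfl
        · omega
        · exact T.tr_deg (hcp _) (by omega)
        · omega

theorem highLam_curve {X : V} {M : G.Bund X} (hX : T.dim X ≤ 1) : HighLam M :=
  ⟨0, zero_mem _, fun _ _ _ => ⟨rfl, fun _ _ => ⟨fun _ => by omega, fun _ => rfl⟩⟩⟩

end Pool.Std
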